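import Pool.Agent.H20.WC.ActCont
import Pool.Agent.H81.FG.Defs
import Pool.Agent.H81.TG.Disc

/-!
MP_90715c_gt, EverywhereFat: joint continuity of the Moebius action.
-/

open Matrix Set Filter Topology

namespace Pool.Agent.H33.EF

open Pool.Agent.H90.WC

theorem exists_to_zero (x : OnePoint ℂ) : ∃ g : G, act g x = ((0 : ℂ) : OnePoint ℂ) := by
  induction x using OnePoint.rec with
  | infty =>
    refine ⟨⟨!![0, 1; -1, 0], by rw [Matrix.det_fin_two_of]; norm_num⟩, ?_⟩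
    set w : G := ⟨!![0, 1; -1, 0], by rw [Matrix.det_fin_two_of]; norm_num⟩ with hw
    have w00 : w 0 0 = 0 := rfl
    have w10 : w 1 0 = -1 := rfl
    rw [act_infty, w10, w00, if_neg (by norm_num), zero_div]
  | coe z =>
    refine ⟨(Pool.Agent.H81.TG.fr z 1 one_pos)⁻¹, ?_⟩
    have h := Pool.Agent.H81.TG.act_fr z 1 one_pos 0
    rw [mul_zero, zero_add] at h
    rw [← h, act_inv_act]

theorem tendsto_act_zero {ι : Type*} {l : Filter ι} {u : ι → G} {z : ι → OnePoint ℂ}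
    (hu : Tendsto u l (𝓝 1)) (hz : Tendsto z l (𝓝 ((0 : ℂ) : OnePoint ℂ))) :
    Tendsto (fun i => act (u i) (z i)) l (𝓝 ((0 : ℂ) : OnePoint ℂ)) := by
  intro U hU
  rw [← OnePoint.isOpenEmbedding_coe.map_nhds_eq, mem_map] at hU
  obtain ⟨ε, hε, hball⟩ := Metric.mem_nhds_iff.1 hU
  have h1 := hu.eventually (mob_near_one (ε / 2) (δ := ε / 4) (by positivity))
  have h2 : ∀ᶠ i in l, z i ∈ ((↑) : ℂ → OnePoint ℂ) '' Metric.ball (0 : ℂ) (ε / 2) := by
    apply hz
    exact (OnePoint.isOpenEmbedding_coe.isOpenMap _ Metric.isOpen_ball).mem_nhds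
      ⟨0, Metric.mem_ball_self (by positivity), rfl⟩
  rw [mem_map]
  filter_upwards [h1, h2] with i hi1 hi2
  obtain ⟨w, hw, hwz⟩ := hi2
  rw [mem_ball_zero_iff] at hw
  obtain ⟨a1, a2⟩ := hi1 w hw.le
  show act (u i) (z i) ∈ U
  rw [← hwz, act_coe_of_ne a1]
  apply hball
  rw [mem_ball_zero_iff]
  have := norm_sub_norm_le (mob (u i) w) w
  linarith

/-- joint continuity of the action -/
theorem tendsto_act {ι : Type*} {l : Filter ι} {u : ι → G} {z : ι → OnePoint ℂ} {g : G}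
    {x : OnePoint ℂ} (hu : Tendsto u l (𝓝 g)) (hz : Tendsto z l (𝓝 x)) :
    Tendsto (fun i => act (u i) (z i)) l (𝓝 (act g x)) := by
  obtain ⟨m, hm⟩ := exists_to_zero x
  have h1 : Tendsto (fun i => m * g⁻¹ * u i * m⁻¹) l (𝓝 1) := by
    have h2 : Tendsto (fun i => m * g⁻¹ * u i * m⁻¹) l (𝓝 (m * g⁻¹ * g * m⁻¹)) :=
      (tendsto_const_nhds.mul hu).mul tendsto_const_nhds
    have e : m * g⁻¹ * g * m⁻¹ = 1 := by group
    rwa [e] at h2
  have h2 : Tendsto (fun i => act m (z i)) l (𝓝 ((0 : ℂ) : OnePoint ℂ)) := by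
    rw [← hm]
    exact ((continuous_act m).tendsto x).comp hz
  have h3 := tendsto_act_zero h1 h2
  have h4 := ((continuous_act (g * m⁻¹)).tendsto _).comp h3
  have e1 : act (g * m⁻¹) ((0 : ℂ) : OnePoint ℂ) = act g x := by
    rw [← hm, act_mul, act_inv_act]
  rw [e1] at h4
  refine h4.congr fun i => ?_
  show act (g * m⁻¹) (act (m * g⁻¹ * u i * m⁻¹) (act m (z i))) = act (u i) (z i)
  rw [← act_mul, ← act_mul]
  congr 1
  group

end Pool.Agent.H33.EF
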