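import Pool.Agent.H33.EF.LoopN
import Pool.Agent.H33.EF.Act
import Pool.Agent.H33.GC.Row5

/-!
MP_90715c_gt, EverywhereFat: cone points are never generic.
-/

open Matrix Set Filter Topology MeasureTheory

namespace Pool.Agent.H33.EF

open Pool.Agent.H90.WC Pool.Agent.H33.GC

/-- the frame which maps `0`, `∞` to two neighbours on the unit circle and `u`, `ζ u` to `0`,
`∞` -/
theorem exists_frame_n {N : ℕ} (hN : zn N ≠ 1) {u : ℂ} (hu : u ≠ 0) (i : ℕ) :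
    ∃ f : G, act f OnePoint.infty = ((zn N ^ (i + 1) : ℂ) : OnePoint ℂ) ∧
      ∀ w : ℂ, w ≠ zn N * u →
        act f (w : OnePoint ℂ) = ((zn N ^ (i + 1) * ((w - u) / (w - zn N * u)) : ℂ) :
          OnePoint ℂ) := by
  set ζ : ℂ := zn N with hζ
  have hζ0 : ζ ≠ 0 := zn_ne N
  set t : ℂ := ζ ^ (i + 1) with ht
  have ht0 : t ≠ 0 := pow_ne_zero _ hζ0
  have hD : t * u * (1 - ζ) ≠ 0 :=
    mul_ne_zero (mul_ne_zero ht0 hu) (sub_ne_zero.2 (Ne.symm hN))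
  obtain ⟨a, ha⟩ := IsAlgClosed.exists_pow_nat_eq (t * u * (1 - ζ))⁻¹ (n := 2) (by norm_num)
  have ha2 : a ^ 2 * (t * u * (1 - ζ)) = 1 := by
    rw [ha, inv_mul_cancel₀ hD]
  have ha0 : a ≠ 0 := by
    rintro rfl
    rw [zero_pow (by norm_num), zero_mul] at ha2
    exact zero_ne_one ha2
  have hdet : (!![a * t, -(a * t * u); a, -(a * (ζ * u))] : Matrix (Fin 2) (Fin 2) ℂ).det = 1 := by
    rw [Matrix.det_fin_two_of]
    linear_combination ha2
  refine ⟨⟨_, hdet⟩, ?_, ?_⟩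
  · set f : G := ⟨_, hdet⟩ with hf
    have f00 : f 0 0 = a * t := rfl
    have f10 : f 1 0 = a := rfl
    rw [act_infty, f10, f00, if_neg ha0]
    congr 1
    field_simp
  · intro w hw
    set f : G := ⟨_, hdet⟩ with hf
    have f00 : f 0 0 = a * t := rfl
    have f01 : f 0 1 = -(a * t * u) := rfl
    have f10 : f 1 0 = a := rfl
    have f11 : f 1 1 = -(a * (ζ * u)) := rfl
    have hwu : w - ζ * u ≠ 0 := sub_ne_zero.2 hw
    have hne : f 1 0 * w + f 1 1 ≠ 0 := by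
      rw [f10, f11]
      have : a * w + -(a * (ζ * u)) = a * (w - ζ * u) := by ring
      rw [this]
      exact mul_ne_zero ha0 hwu
    rw [act_coe_of_ne hne]
    congr 1
    unfold mob
    rw [f00, f01, f10, f11]
    have e1 : a * w + -(a * (ζ * u)) = a * (w - ζ * u) := by ring
    have e2 : a * t * w + -(a * t * u) = a * (t * (w - u)) := by ring
    rw [e1, e2, mul_div_mul_left _ _ ha0, mul_div_assoc]

theorem act_sc_inv_infty (k : ℕ) : act (sc k)⁻¹ OnePoint.infty = OnePoint.infty := by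
  have h : act (sc k) OnePoint.infty = OnePoint.infty := by
    rw [act_infty, GC.sc_10, if_pos rfl]
  conv_lhs => rw [← h]
  rw [act_inv_act]

theorem act_sc_inv_coe (k : ℕ) (z : ℂ) :
    act (sc k)⁻¹ (z : OnePoint ℂ) = (((4 : ℂ) ^ k * z : ℂ) : OnePoint ℂ) := by
  have h := act_frame 1 k z
  rw [act_one, one_mul] at h
  rw [h, act_inv_act]

/-- one piece of the loop: the whole translate -/
theorem cone_piece {Γ : Subgroup G} {F : Set G} (hF : F.Finite) {K : Set (OnePoint ℂ)}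
    (hK : IsCompact K) (hKp : IsPreconnected K) (h0 : ((0 : ℂ) : OnePoint ℂ) ∈ K)
    {y0 : OnePoint ℂ} (hy0 : y0 ∈ K) (hy0' : y0 ≠ ((0 : ℂ) : OnePoint ℂ)) {h : G}
    (H : Wan Γ F K h) {u : ℂ} {ε0 : ℝ} (hε0 : 0 < ε0)
    (hole : ∀ᶠ k : ℕ in atTop, ∀ z : ℂ, ‖(4 : ℂ) ^ k * z - u‖ < ε0 → (z : OnePoint ℂ) ∉ K)
    (hFr : ∀ f : G, ∀ V ∈ 𝓝 f, ∀ T : ℕ, ∃ k > T, ∃ γ ∈ Γ, γ * h * sc k ∈ V)
    {γ' : G} (hγ' : γ' ∈ Γ) {ε : ℝ} (hε : 0 < ε) (hε' : ε ≤ 1 / 20) {N : ℕ} (hN : 63 ≤ N)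
    (hNu : ‖zn N - 1‖ * ‖u‖ ≤ ε0 / 16) (hN1 : zn N ≠ 1) (hu : u ≠ 0)
    (i : ℕ) : ∃ S : Set ℂ, IsCompact S ∧ IsPreconnected S ∧
      (∀ z ∈ S, ‖z - zn N ^ i‖ ≤ 4 / 5) ∧
      (∃ z ∈ S, ‖z - zn N ^ i‖ ≤ ε) ∧ (∃ z ∈ S, ‖z - zn N ^ (i + 1)‖ ≤ ε) ∧
      ∀ z ∈ S, ∀ y ∈ K, (z : OnePoint ℂ) ≠ act (γ' * h) y := by
  have hu0 : 0 < ‖u‖ := norm_pos_iff.2 hu
  have hNR : (63 : ℝ) ≤ N := by exact_mod_cast hN
  have hz1 : ‖zn N - 1‖ ≤ 1 / 10 := by
    refine (norm_zn_sub_one N).trans ?_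
    have := Real.pi_lt_d2
    rw [div_le_iff₀ (by linarith)]
    nlinarith
  obtain ⟨f, hfi, hf⟩ := exists_frame_n hN1 hu i
  have hU1 := mob_near_one 2 (δ := ε / 2) (by positivity)
  -- the neighbourhood
  have hVa : ∀ᶠ g : G in 𝓝 f, g * f⁻¹ ∈ {u' : G | ∀ w : ℂ, ‖w‖ ≤ 2 → u' 1 0 * w + u' 1 1 ≠ 0 ∧
      ‖mob u' w - w‖ ≤ ε / 2} := by
    have h1 : Tendsto (fun g : G => g * f⁻¹) (𝓝 f) (𝓝 1) := by
      have := (continuous_mul_const f⁻¹).tendsto f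
      rwa [mul_inv_cancel] at this
    exact h1 hU1
  have hVb : ∀ᶠ g : G in 𝓝 f, ‖g 0 1‖ < ‖f 0 1‖ + 1 :=
    ((continuous_entry 0 1).norm.tendsto f).eventually (gt_mem_nhds (by linarith))
  have hVc : ∀ᶠ g : G in 𝓝 f, ‖g 1 1‖ < ‖f 1 1‖ + 1 :=
    ((continuous_entry 1 1).norm.tendsto f).eventually (gt_mem_nhds (by linarith))
  have hdv := (Filter.eventually_all_finite hF).2 fun γ'' _ =>
    diverge (γ' * γ''⁻¹ * h) (max (‖f 0 1‖ + 1) (‖f 1 1‖ + 1))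
  -- the second point is far
  have hfar : ∀ᶠ k : ℕ in atTop, ∀ w : ℂ, y0 = (w : OnePoint ℂ) →
      ‖u‖ + (1 + 1 / ε) * ε0 ≤ ‖(4 : ℂ) ^ k * w‖ := by
    induction y0 using OnePoint.rec with
    | infty => exact Eventually.of_forall fun k w hw => absurd hw (OnePoint.infty_ne_coe _)
    | coe q =>
      have hq : 0 < ‖q‖ := norm_pos_iff.2 fun h => hy0' (by rw [h])
      have h1 : Tendsto (fun k : ℕ => (4 : ℝ) ^ k * ‖q‖) atTop atTop :=
        (tendsto_pow_atTop_atTop_of_one_lt (by norm_num)).atTop_mul_const hq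
      filter_upwards [h1.eventually (eventually_ge_atTop (‖u‖ + (1 + 1 / ε) * ε0))] with k hk w hw
      rw [← OnePoint.coe_injective hw, norm_mul, norm_pow]
      simpa using hk
  obtain ⟨T, hT⟩ := eventually_atTop.1 (hole.and (hdv.and hfar))
  obtain ⟨k, hk, γ, hγ, hg⟩ := hFr f _ ((hVa.and (hVb.and hVc))) T
  obtain ⟨hhole, hdiv, hfar'⟩ := hT k hk.le
  set g : G := γ * h * sc k with hgdef
  obtain ⟨hg1, hg2, hg3⟩ := hg
  set h' : G := g * f⁻¹ with hh'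
  have hg' : g = h' * f := by rw [hh']; group
  -- `γ⁻¹ γ' ∉ F`
  have hne : γ⁻¹ * γ' ∉ F := by
    intro hm
    have hd' := hdiv _ hm
    have e : γ' * (γ⁻¹ * γ')⁻¹ * h * sc k = g := by
      rw [hgdef]
      group
    rw [e] at hd'
    rcases hd' with hd | hd
    · exact absurd ((le_max_left _ _).trans_lt hd) (not_lt.2 hg2.le)
    · exact absurd ((le_max_right _ _).trans_lt hd) (not_lt.2 hg3.le)
  have hact : ∀ x : OnePoint ℂ, act (γ * h) x = act h' (act f (act (sc k)⁻¹ x)) := by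
    intro x
    rw [← act_mul, ← act_mul, ← hg', hgdef]
    congr 1
    group
  -- the frame maps everything outside of the hole close to `ζ ^ (i + 1)`
  have hζu : ‖zn N * u - u‖ ≤ ε0 / 16 := by
    have e : zn N * u - u = (zn N - 1) * u := by ring
    rw [e, norm_mul]
    exact hNu
  have hin : ∀ w : ℂ, ε0 ≤ ‖w - u‖ → ∃ v : ℂ, act f (w : OnePoint ℂ) = (v : OnePoint ℂ) ∧
      ‖v - zn N ^ (i + 1)‖ * ‖w - zn N * u‖ ≤ ε0 / 16 ∧ ‖v - zn N ^ (i + 1)‖ ≤ 1 / 8 := by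
    intro w hw
    have h1 : ε0 / 2 ≤ ‖w - zn N * u‖ := by
      have e : w - u = (w - zn N * u) + (zn N * u - u) := by ring
      have h2 : ‖w - u‖ ≤ ‖w - zn N * u‖ + ‖zn N * u - u‖ := by
        conv_lhs => rw [e]
        exact norm_add_le _ _
      linarith
    have hw' : w - zn N * u ≠ 0 := norm_pos_iff.1 (by linarith)
    have e : zn N ^ (i + 1) * ((w - u) / (w - zn N * u)) - zn N ^ (i + 1) =
        zn N ^ (i + 1) * (zn N * u - u) / (w - zn N * u) := by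
      rw [eq_div_iff hw', sub_mul, mul_assoc, div_mul_cancel₀ _ hw']
      ring
    have h3 : ‖zn N ^ (i + 1) * ((w - u) / (w - zn N * u)) - zn N ^ (i + 1)‖ *
        ‖w - zn N * u‖ ≤ ε0 / 16 := by
      rw [e, norm_div, norm_mul, norm_zn_pow, one_mul, div_mul_cancel₀ _ (norm_ne_zero_iff.2 hw')]
      exact hζu
    refine ⟨_, hf w (sub_ne_zero.1 hw'), h3, ?_⟩
    by_contra hcon
    push Not at hcon
    have h4 : 1 / 8 * (ε0 / 2) < ‖zn N ^ (i + 1) * ((w - u) / (w - zn N * u)) - zn N ^ (i + 1)‖ *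
        ‖w - zn N * u‖ := mul_lt_mul hcon h1 (by positivity) (norm_nonneg _)
    linarith
  have hin' : ∀ x ∈ K, ∃ v : ℂ, act f (act (sc k)⁻¹ x) = (v : OnePoint ℂ) ∧
      ‖v - zn N ^ (i + 1)‖ ≤ 1 / 8 := by
    intro x hx
    induction x using OnePoint.rec with
    | infty =>
      rw [act_sc_inv_infty]
      exact ⟨_, hfi, by rw [sub_self, norm_zero]; norm_num⟩
    | coe z =>
      rw [act_sc_inv_coe]
      obtain ⟨v, hv1, -, hv3⟩ := hin (4 ^ k * z) (not_lt.1 fun hlt => hhole z hlt hx)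
      exact ⟨v, hv1, hv3⟩
  have hv2 : ∀ v : ℂ, ‖v - zn N ^ (i + 1)‖ ≤ 1 / 8 → ‖v‖ ≤ 2 := by
    intro v hv
    have := norm_sub_norm_le v (zn N ^ (i + 1))
    rw [norm_zn_pow] at this
    linarith
  have hall : ∀ x ∈ K, ∃ v : ℂ, act f (act (sc k)⁻¹ x) = (v : OnePoint ℂ) ∧
      act (γ * h) x = ((mob h' v : ℂ) : OnePoint ℂ) ∧ ‖v - zn N ^ (i + 1)‖ ≤ 1 / 8 ∧
      ‖mob h' v - v‖ ≤ ε / 2 := by
    intro x hx
    obtain ⟨v, hv1, hv3⟩ := hin' x hx
    obtain ⟨a1, a2⟩ := hg1 v (hv2 v hv3)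
    refine ⟨v, hv1, ?_, hv3, a2⟩
    rw [hact, hv1, act_coe_of_ne a1]
  have hinf : OnePoint.infty ∉ act (γ * h) '' K := by
    rintro ⟨x, hx, hx'⟩
    obtain ⟨v, -, hv, -⟩ := hall x hx
    rw [hv] at hx'
    exact OnePoint.infty_ne_coe _ hx'.symm
  obtain ⟨hSc, hSp⟩ := finite_part (hK.image (cont_act (γ * h)))
    (hKp.image _ (cont_act (γ * h)).continuousOn) hinf
  have hzz : ‖zn N ^ (i + 1) - zn N ^ i‖ ≤ 1 / 10 := by
    have e : zn N ^ (i + 1) - zn N ^ i = zn N ^ i * (zn N - 1) := by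
      rw [pow_succ]
      ring
    rw [e, norm_mul, norm_zn_pow, one_mul]
    exact hz1
  refine ⟨{w : ℂ | (w : OnePoint ℂ) ∈ act (γ * h) '' K}, hSc, hSp, ?_, ?_, ?_, ?_⟩
  · rintro z ⟨x, hx, hx'⟩
    obtain ⟨v, -, hv, hv3, hv4⟩ := hall x hx
    rw [hv] at hx'
    rw [← OnePoint.coe_injective hx']
    have e : mob h' v - zn N ^ i = (mob h' v - v) + (v - zn N ^ (i + 1)) +
        (zn N ^ (i + 1) - zn N ^ i) := by ring
    rw [e]
    refine (norm_add_le _ _).trans ?_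
    have := norm_add_le (mob h' v - v) (v - zn N ^ (i + 1))
    linarith
  · -- the image of `0`
    obtain ⟨v, hv1, hv2', -, hv4⟩ := hall _ h0
    refine ⟨mob h' v, ⟨_, h0, hv2'⟩, ?_⟩
    rw [act_sc_inv_coe, mul_zero, hf 0 (by
      intro h
      exact (mul_ne_zero (zn_ne N) hu) h.symm)] at hv1
    have hv5 : v = zn N ^ i := by
      rw [← OnePoint.coe_injective hv1]
      have := zn_ne N
      rw [zero_sub, zero_sub, neg_div_neg_eq, pow_succ]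
      field_simp
    rw [hv5] at hv4 ⊢
    linarith
  · -- the image of the second point
    obtain ⟨v, hv1, hv2', -, hv4⟩ := hall _ hy0
    refine ⟨mob h' v, ⟨_, hy0, hv2'⟩, ?_⟩
    have hv5 : ‖v - zn N ^ (i + 1)‖ ≤ ε / 2 := by
      clear hv2'
      induction y0 using OnePoint.rec with
      | infty =>
        rw [act_sc_inv_infty, hfi] at hv1
        rw [← OnePoint.coe_injective hv1, sub_self, norm_zero]
        linarith
      | coe z =>
        have h1 := hfar' z rfl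
        rw [act_sc_inv_coe] at hv1
        have h2 : ε0 ≤ ‖(4 : ℂ) ^ k * z - u‖ := not_lt.1 fun hlt => hhole z hlt hy0
        obtain ⟨v', hv'1, hv'2, -⟩ := hin _ h2
        rw [hv1] at hv'1
        rw [← OnePoint.coe_injective hv'1] at hv'2
        have h3 : 1 / ε * ε0 ≤ ‖(4 : ℂ) ^ k * z - zn N * u‖ := by
          have h4 := norm_sub_norm_le ((4 : ℂ) ^ k * z) (zn N * u)
          rw [norm_mul (zn N), norm_zn, one_mul] at h4
          have : (1 + 1 / ε) * ε0 = ε0 + 1 / ε * ε0 := by ring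
          linarith
        have h5 : ‖v - zn N ^ (i + 1)‖ * (1 / ε * ε0) ≤ ε0 / 16 :=
          (mul_le_mul_of_nonneg_left h3 (norm_nonneg _)).trans hv'2
        have h6 : ‖v - zn N ^ (i + 1)‖ * (1 / ε * ε0) * ε = ‖v - zn N ^ (i + 1)‖ * ε0 := by
          field_simp
        have h7 : ‖v - zn N ^ (i + 1)‖ * ε0 ≤ ε0 / 16 * ε := by
          rw [← h6]
          exact mul_le_mul_of_nonneg_right h5 hε.le
        by_contra hcon
        push Not at hcon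
        have h8 : ε / 2 * ε0 < ‖v - zn N ^ (i + 1)‖ * ε0 := mul_lt_mul_of_pos_right hcon hε0
        nlinarith
    have e : mob h' v - zn N ^ (i + 1) = (mob h' v - v) + (v - zn N ^ (i + 1)) := by ring
    rw [e]
    refine (norm_add_le _ _).trans ?_
    linarith
  · rintro z ⟨x, hx, hx'⟩ y hy e
    exact H.disj hγ hγ' hne hx hy (hx'.trans e)

/-- the core -/
theorem cone_core {Γ : Subgroup G} {F : Set G} (hF : F.Finite)
    {K : Set (OnePoint ℂ)} (hK : IsCompact K)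
    (hc : IsPreconnected K) (h0 : ((0 : ℂ) : OnePoint ℂ) ∈ K) {y0 : OnePoint ℂ} (hy0 : y0 ∈ K)
    (hy0' : y0 ≠ ((0 : ℂ) : OnePoint ℂ)) {h : G} (H : Wan Γ F K h)
    {u : ℂ} {ε0 : ℝ} (hε0 : 0 < ε0)
    (hole : ∀ᶠ k : ℕ in atTop, ∀ z : ℂ, ‖(4 : ℂ) ^ k * z - u‖ < ε0 → (z : OnePoint ℂ) ∉ K)
    (hFr : ∀ f : G, ∀ V ∈ 𝓝 f, ∀ T : ℕ, ∃ k > T, ∃ γ ∈ Γ, γ * h * sc k ∈ V) : False := by
  have hu : u ≠ 0 := by
    rintro rfl
    obtain ⟨k, hk⟩ := hole.exists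
    refine hk 0 ?_ h0
    rw [mul_zero, sub_zero, norm_zero]
    exact hε0
  have hu0 : 0 < ‖u‖ := norm_pos_iff.2 hu
  -- the number of pieces
  obtain ⟨N, hN, hNu, hN1⟩ : ∃ N : ℕ, 63 ≤ N ∧ ‖zn N - 1‖ * ‖u‖ ≤ ε0 / 16 ∧ zn N ≠ 1 := by
    obtain ⟨m, hm⟩ := exists_nat_gt (2 * Real.pi * ‖u‖ / (ε0 / 16))
    have hN : 63 ≤ max m 63 := le_max_right _ _
    have hNR : (63 : ℝ) ≤ ((max m 63 : ℕ) : ℝ) := by exact_mod_cast hN
    have hmR : (m : ℝ) ≤ ((max m 63 : ℕ) : ℝ) := by exact_mod_cast le_max_left m 63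
    refine ⟨max m 63, hN, ?_, ?_⟩
    · have h1 := norm_zn_sub_one (max m 63)
      have h2 : ‖zn (max m 63) - 1‖ * ‖u‖ ≤ 2 * Real.pi / ((max m 63 : ℕ) : ℝ) * ‖u‖ :=
        mul_le_mul_of_nonneg_right h1 hu0.le
      refine h2.trans ?_
      rw [div_lt_iff₀ (by positivity)] at hm
      rw [div_mul_eq_mul_div, div_le_iff₀ (by linarith)]
      have h3 : (m : ℝ) * (ε0 / 16) ≤ ((max m 63 : ℕ) : ℝ) * (ε0 / 16) :=
        mul_le_mul_of_nonneg_right hmR (by positivity)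
      linarith
    · intro h1
      have h2 := log_zn_mul (N := max m 63) (by omega) (w := 1) (by simp)
      rw [h1, one_mul, Complex.log_one, add_zero] at h2
      have h3 := congrArg Complex.im h2
      rw [Complex.zero_im, mul_comm, Complex.I_mul_im, Complex.ofReal_re] at h3
      have : 0 < 2 * Real.pi / ((max m 63 : ℕ) : ℝ) := by
        have := Real.pi_pos
        positivity
      linarith
  -- the finite set of bad elements
  have hBi : {γ : G | γ ∈ Γ ∧ ∃ x ∈ K, act (γ * h) x = OnePoint.infty}.Finite := H.finite hF _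
  have hBz : (⋃ i ∈ Iio N, {γ : G | γ ∈ Γ ∧ ∃ x ∈ K, act (γ * h) x =
      ((zn N ^ i : ℂ) : OnePoint ℂ)}).Finite :=
    (Set.finite_Iio N).biUnion fun i _ => H.finite hF _
  have hB := hBi.union hBz
  have hdiv := (Filter.eventually_all_finite hB).2 fun γ _ => diverge (γ * h) 2
  -- the far point
  have hfar : ∀ᶠ k : ℕ in atTop, ∀ w : ℂ, y0 = (w : OnePoint ℂ) → 12 ≤ ‖(4 : ℂ) ^ k * w‖ := by
    induction y0 using OnePoint.rec with
    | infty => exact Eventually.of_forall fun k w hw => absurd hw (OnePoint.infty_ne_coe _)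
    | coe q =>
      have hq : 0 < ‖q‖ := norm_pos_iff.2 fun h => hy0' (by rw [h])
      have h1 : Tendsto (fun k : ℕ => (4 : ℝ) ^ k * ‖q‖) atTop atTop :=
        (tendsto_pow_atTop_atTop_of_one_lt (by norm_num)).atTop_mul_const hq
      filter_upwards [h1.eventually (eventually_ge_atTop 12)] with k hk w hw
      rw [← OnePoint.coe_injective hw, norm_mul, norm_pow]
      simpa using hk
  obtain ⟨T, hT⟩ := eventually_atTop.1 (hdiv.and hfar)
  obtain ⟨k, hk, γ', hγ', hg⟩ := hFr 1 V0 V0_nhds T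
  obtain ⟨hd, hf⟩ := hT k hk.le
  have hgood : γ' ∉ {γ : G | γ ∈ Γ ∧ ∃ x ∈ K, act (γ * h) x = OnePoint.infty} ∪
      ⋃ i ∈ Iio N, {γ : G | γ ∈ Γ ∧ ∃ x ∈ K, act (γ * h) x = ((zn N ^ i : ℂ) : OnePoint ℂ)} := by
    intro hbad
    obtain ⟨-, u2, -, u4⟩ := hg
    rcases hd γ' hbad with h1 | h1
    · linarith
    · have := norm_sub_norm_le ((γ' * h * sc k) 1 1) 1
      rw [norm_one] at this
      linarith
  rw [mem_union, not_or] at hgood
  obtain ⟨hg1, hg2⟩ := hgood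
  -- the big translate
  set L : Set (OnePoint ℂ) := act (γ' * h) '' K with hL
  have hLc : IsCompact L := hK.image (cont_act _)
  have hLp : IsPreconnected L := hc.image _ (cont_act _).continuousOn
  have hLinf : OnePoint.infty ∉ L := by
    rintro ⟨x, hx, e⟩
    exact hg1 ⟨hγ', x, hx, e⟩
  have hLz : ∀ i < N, ((zn N ^ i : ℂ) : OnePoint ℂ) ∉ L := by
    rintro i hi ⟨x, hx, e⟩
    exact hg2 (mem_iUnion₂.2 ⟨i, hi, hγ', x, hx, e⟩)
  obtain ⟨hK'c, hK'p⟩ := finite_part hLc hLp hLinf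
  set K' : Set ℂ := {w : ℂ | (w : OnePoint ℂ) ∈ L} with hK'
  -- the two points
  obtain ⟨n, hn, hn'⟩ := V0_zero hg
  have hnK : n ∈ K' := by
    refine ⟨_, h0, ?_⟩
    rw [act_mul, act_sc_zero] at hn
    exact hn
  have hy1 : act (γ' * h) y0 ∈ L := ⟨y0, hy0, rfl⟩
  obtain ⟨n', hn1⟩ : ∃ n' : ℂ, act (γ' * h) y0 = (n' : OnePoint ℂ) := by
    generalize act (γ' * h) y0 = x at hy1
    induction x using OnePoint.rec with
    | infty => exact absurd hy1 hLinf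
    | coe v => exact ⟨v, rfl⟩
  have hn'K : n' ∈ K' := by
    show (n' : OnePoint ℂ) ∈ L
    rw [← hn1]
    exact hy1
  have hn10 : 10 ≤ ‖n'‖ := by
    refine V0_far hg (y := act (sc k)⁻¹ y0) ?_ ?_
    · intro w hw
      have e : y0 = act (sc k) (w : OnePoint ℂ) := by rw [← hw, act_act_inv]
      have h1 : sc k 1 0 * w + sc k 1 1 ≠ 0 := by
        rw [GC.sc_10, GC.sc_11]
        simp
      rw [act_coe_of_ne h1] at e
      have h2 := hf _ e
      have e3 := act_sc_inv_coe k (mob (sc k) w)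
      rw [← e, hw] at e3
      rw [← OnePoint.coe_injective e3] at h2
      exact h2
    · rw [act_mul, act_act_inv]
      exact hn1
  -- `ε`
  have hε : ∀ᶠ δ : ℝ in 𝓝[>] 0, ∀ i ∈ Iio N, ∀ z ∈ K', δ < ‖z - zn N ^ i‖ := by
    rw [Filter.eventually_all_finite (Set.finite_Iio N)]
    intro i hi
    have h1 : (K'ᶜ : Set ℂ) ∈ 𝓝 (zn N ^ i) := hK'c.isClosed.isOpen_compl.mem_nhds (hLz i hi)
    obtain ⟨r, hr, hball⟩ := Metric.mem_nhds_iff.1 h1
    filter_upwards [Ioo_mem_nhdsGT hr] with δ hδ z hz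
    by_contra hcon
    push Not at hcon
    exact hball (mem_ball_iff_norm.2 (hcon.trans_lt hδ.2)) hz
  obtain ⟨ε, hε1, hε2, hε3⟩ := (hε.and (Ioc_mem_nhdsGT (show (0 : ℝ) < 1 / 20 by norm_num))).exists
  have hS := fun i => cone_piece hF hK hc h0 hy0 hy0' H hε0 hole hFr hγ' hε2 hε3 hN hNu hN1 hu i
  choose S hS1 hS2 hS3 hS4 hS5 hS6 using hS
  refine loopn (K := K') (n := n) (n' := n') (S := S) hN hK'p hnK hn'K hn' hn10 hε2 hε3
    (fun i _ => ⟨hS1 i, hS2 i, hS3 i, hS4 i, hS5 i, ?_⟩) (fun i hi => hε1 i hi)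
  rw [Set.disjoint_left]
  rintro z hz ⟨y, hy, e⟩
  exact hS6 i z hz y hy e.symm

theorem cone (hG : Gen2Stmt) (Γ : Subgroup G) [DiscreteTopology Γ] [CompactSpace (G ⧸ Γ)] :
    ∃ E : Set ℂ, IsMeagre E ∧ volume E = 0 ∧
      ∀ K : Set (OnePoint ℂ), IsCompact K → IsPreconnected K → K.Nontrivial →
        {g : G | g ∈ Γ ∧ ∃ x ∈ K, act g x ∈ K}.Finite → ∀ p : ℂ, (p : OnePoint ℂ) ∈ K →
        (∃ u : ℂ, ∃ ε > (0 : ℝ), ∀ᶠ k : ℕ in atTop, ∀ z : ℂ, ‖z - (p + u / 4 ^ k)‖ < ε / 4 ^ k →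
          (z : OnePoint ℂ) ∉ K) → p ∈ E := by
  obtain ⟨b0, -, E, hE1, hE2, hE3⟩ := hG Γ (fun _ => 1) (fun _ => norm_one)
  refine ⟨E, hE1, hE2, ?_⟩
  rintro K hK hKp hn hfin p hpK ⟨u, ε, hε, hole⟩
  by_contra hpE
  have htr : ∀ z : ℂ, act (tr p) (z : OnePoint ℂ) = ((z + p : ℂ) : OnePoint ℂ) := by
    intro z
    have h1 : tr p 1 0 * z + tr p 1 1 ≠ 0 := by
      rw [tr_10, tr_11]
      simp
    rw [act_coe_of_ne h1]
    congr 1
    unfold mob
    rw [tr_00, tr_01, tr_10, tr_11]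
    ring
  have hp0 : act (tr p) ((0 : ℂ) : OnePoint ℂ) = (p : OnePoint ℂ) := by rw [htr, zero_add]
  have hFr := hE3 (tr p) p hpE hp0
  set K1 : Set (OnePoint ℂ) := act (tr p)⁻¹ '' K with hK1
  have hK1m : ∀ x ∈ K1, act (tr p) x ∈ K := by
    rintro _ ⟨x, hx, rfl⟩
    rw [act_act_inv]
    exact hx
  obtain ⟨y, hy, hyp⟩ := hn.exists_ne (p : OnePoint ℂ)
  refine cone_core (Γ := Γ) (F := {g : G | g ∈ Γ ∧ ∃ x ∈ K, act g x ∈ K}) hfin (K := K1)
    (hK.image (cont_act _)) (hKp.image _ (cont_act _).continuousOn) ?_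
    (y0 := act (tr p)⁻¹ y) ⟨y, hy, rfl⟩ ?_ (h := tr p) ?_ (u := u) (ε0 := ε) hε ?_ ?_
  · refine ⟨_, hpK, ?_⟩
    rw [← hp0, act_inv_act]
  · intro e
    apply hyp
    rw [← hp0, ← e, act_act_inv]
  · intro γ hγ hγF x hx z hz e
    refine hγF ⟨hγ, _, hK1m x hx, ?_⟩
    rw [e]
    exact hK1m z hz
  · filter_upwards [hole] with k hk z hz hzK
    refine hk (z + p) ?_ ?_
    · have h4 : (4 : ℂ) ^ k ≠ 0 := pow_ne_zero _ (by norm_num)
      have e : z + p - (p + u / 4 ^ k) = (4 ^ k * z - u) / 4 ^ k := by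
        field_simp
        ring
      rw [e, norm_div, norm_pow]
      have : ‖(4 : ℂ)‖ = 4 := by norm_num
      rw [this]
      exact div_lt_div_of_pos_right hz (by positivity)
    · rw [← htr]
      exact hK1m _ hzK
  · intro f V hV T
    obtain ⟨k, hk, -, γ, hγ, hm⟩ := hFr f V hV 1 one_pos T
    exact ⟨k, hk, γ, hγ, hm⟩

end Pool.Agent.H33.EF
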