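import Pool.Agent.H33.EF.Main
import Pool.Agent.H33.EF.Cone
import Pool.Agent.H33.GC.Main

/-!
MP_90715c_gt, EverywhereFat: both parts with one exceptional set.
-/

open Matrix Set Filter Topology MeasureTheory

namespace Pool.Agent.H33.EF

open Pool.Agent.H90.WC Pool.Agent.H33.GC

theorem gen2 : Gen2Stmt := row3b (Pool.Agent.H7.GC.row3 (Pool.Agent.H60.GC.b0 row1))

theorem final (Γ : Subgroup G) [DiscreteTopology Γ] [CompactSpace (G ⧸ Γ)] :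
    ∃ E : Set ℂ, IsMeagre E ∧ volume E = 0 ∧
      ∀ K : Set (OnePoint ℂ), IsCompact K → IsConnected K → K.Nontrivial →
        {g : G | g ∈ Γ ∧ ∃ x ∈ K, act g x ∈ K}.Finite →
        (∀ p : ℂ, (p : OnePoint ℂ) ∈ K → (∃ u : ℂ, ∃ ε > (0 : ℝ), ∀ᶠ k : ℕ in atTop, ∀ z : ℂ,
          ‖z - (p + u / 4 ^ k)‖ < ε / 4 ^ k → (z : OnePoint ℂ) ∉ K) → p ∈ E) ∧
        ((∃ p : ℂ, p ∉ E ∧ (p : OnePoint ℂ) ∈ K) →
          ∀ η > (0 : ℝ), ∃ M > (0 : ℝ), ∀ A : Set ℂ, IsPreconnected A →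
            (∀ z ∈ A, (z : OnePoint ℂ) ∈ K) → ∀ a ∈ A, ∀ b ∈ A, ∀ s > (0 : ℝ), ∀ r > (0 : ℝ),
              10 * s ≤ ‖b - a‖ → M * r ≤ s →
                ∃ w : ℂ, ‖w - a‖ = s ∧ ∀ v : ℂ, ‖v - w‖ ≤ r → ∃ u ∈ A, ‖u - v‖ ≤ η * r) := by
  obtain ⟨E1, h1, h2, h3⟩ := main Γ
  obtain ⟨E2, k1, k2, k3⟩ := cone gen2 Γ
  refine ⟨E1 ∪ E2, ?_, ?_, ?_⟩
  · rw [IsMeagre, compl_union]
    exact inter_mem h1 k1
  · exact measure_union_null h2 k2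
  · intro K hK hKc hn hfin
    refine ⟨fun p hp hu => Or.inr (k3 K hK hKc.isPreconnected hn hfin p hp hu), ?_⟩
    rintro ⟨p, hp, hpK⟩
    exact h3 K hK hKc hn ⟨p, fun h => hp (Or.inl h), hpK⟩ hfin

end Pool.Agent.H33.EF
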