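import Pool.Agent.H33.EF.Act

/-!
MP_90715c_gt, EverywhereFat: translates of a continuum through a generic point connect all pairs
of open sets.
-/

open Matrix Set Filter Topology

namespace Pool.Agent.H33.EF

open Pool.Agent.H90.WC Pool.Agent.H81.FG

theorem mob_sub (g : G) {z : ℂ} (h10 : g 1 0 ≠ 0) (hz : g 1 0 * z + g 1 1 ≠ 0) :
    mob g z - g 0 0 / g 1 0 = -1 / (g 1 0 * (g 1 0 * z + g 1 1)) := by
  have hdet := det_eq g
  unfold mob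
  rw [div_sub_div _ _ hz h10, div_eq_div_iff (mul_ne_zero hz h10) (mul_ne_zero h10 hz)]
  linear_combination -(g 1 0 * (g 1 0 * z + g 1 1)) * hdet

theorem two_balls {Γ : Subgroup G} {p : ℂ} (hp : Gen Γ p) {K : Set (OnePoint ℂ)}
    (hpK : (p : OnePoint ℂ) ∈ K) {q : OnePoint ℂ} (hqK : q ∈ K) (hqp : q ≠ (p : OnePoint ℂ))
    {X Y : ℂ} (hXY : X ≠ Y) {ρ0 : ℝ} (hρ0 : 0 < ρ0) {Φ : Set G} (hΦ : Φ.Finite) :
    ∃ g ∈ Γ, g ∉ Φ ∧ (∃ x : ℂ, ‖x - X‖ < ρ0 ∧ ∃ k ∈ K, act g k = (x : OnePoint ℂ)) ∧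
      ∃ y : ℂ, ‖y - Y‖ < ρ0 ∧ ∃ k ∈ K, act g k = (y : OnePoint ℂ) := by
  obtain ⟨B, hB⟩ : ∃ B : ℝ, ∀ g ∈ Φ, ‖g 1 0‖ ≤ B := by
    obtain ⟨B, hB⟩ := (hΦ.image fun g : G => ‖g 1 0‖).bddAbove
    exact ⟨B, fun g hg => hB (mem_image_of_mem _ hg)⟩
  obtain ⟨δ, hδ, hqδ⟩ : ∃ δ > (0 : ℝ), ∀ z : ℂ, q = (z : OnePoint ℂ) → δ ≤ ‖z - p‖ := by
    induction q using OnePoint.rec with
    | infty => exact ⟨1, one_pos, fun z hz => absurd hz (OnePoint.infty_ne_coe _)⟩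
    | coe v =>
      refine ⟨‖v - p‖, norm_pos_iff.2 (sub_ne_zero.2 fun h => hqp (by rw [h])), fun z hz => ?_⟩
      rw [OnePoint.coe_injective hz]
  have hXY' : 0 < ‖X - Y‖ := norm_pos_iff.2 (sub_ne_zero.2 hXY)
  set ρ : ℝ := min (ρ0 / 2) (min (‖X - Y‖ / 4) (min (δ / 4) (1 / (max B 0 + 1)))) with hρ
  have hB0 : 0 < max B 0 + 1 := by positivity
  have hρpos : 0 < ρ := by
    rw [hρ]
    refine lt_min (by positivity) (lt_min (by positivity) (lt_min (by positivity) ?_))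
    positivity
  have r1 : ρ ≤ ρ0 / 2 := min_le_left _ _
  have r2 : ρ ≤ ‖X - Y‖ / 4 := (min_le_right _ _).trans (min_le_left _ _)
  have r3 : ρ ≤ δ / 4 := ((min_le_right _ _).trans (min_le_right _ _)).trans (min_le_left _ _)
  have r4 : ρ ≤ 1 / (max B 0 + 1) :=
    ((min_le_right _ _).trans (min_le_right _ _)).trans (min_le_right _ _)
  obtain ⟨g, hg, h1, h2, h3, h4⟩ := hp X Y hXY ρ hρpos
  have n10 : 0 < ‖g 1 0‖ := (inv_pos.2 hρpos).trans h2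
  have h10 : g 1 0 ≠ 0 := norm_pos_iff.1 n10
  have hgρ : 1 < ‖g 1 0‖ * ρ := by
    have := mul_lt_mul_of_pos_right h2 hρpos
    rwa [inv_mul_cancel₀ hρpos.ne'] at this
  refine ⟨g, hg, ?_, ⟨mob g p, h3.trans_le (r1.trans (by linarith)), _, hpK, act_coe_of_ne h1⟩, ?_⟩
  · intro hmem
    have h5 := hB g hmem
    have h6 : ‖g 1 0‖ * ρ ≤ 1 := by
      calc ‖g 1 0‖ * ρ ≤ (max B 0 + 1) * (1 / (max B 0 + 1)) := by
            refine mul_le_mul ?_ r4 hρpos.le hB0.le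
            have := le_max_left B 0
            linarith
        _ = 1 := by field_simp
    linarith
  · induction q using OnePoint.rec with
    | infty =>
      refine ⟨g 0 0 / g 1 0, h4.trans_le (r1.trans (by linarith)), _, hqK, ?_⟩
      rw [act_infty, if_neg h10]
    | coe z =>
      have hz := hqδ z rfl
      -- the denominator at `p`
      have e1 := mob_sub g h10 h1
      have h5 : ‖X - Y‖ / 2 ≤ ‖mob g p - g 0 0 / g 1 0‖ := by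
        have e : X - Y = (mob g p - g 0 0 / g 1 0) - (mob g p - X) + (g 0 0 / g 1 0 - Y) := by ring
        have h6 : ‖X - Y‖ ≤ ‖mob g p - g 0 0 / g 1 0‖ + ‖mob g p - X‖ + ‖g 0 0 / g 1 0 - Y‖ := by
          conv_lhs => rw [e]
          exact (norm_add_le _ _).trans (add_le_add (norm_sub_le _ _) le_rfl)
        linarith
      have h6 : ‖g 1 0 * p + g 1 1‖ ≤ 1 / 2 := by
        rw [e1, norm_div, norm_neg, norm_one, norm_mul] at h5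
        have hpos : 0 < ‖g 1 0‖ * ‖g 1 0 * p + g 1 1‖ := mul_pos n10 (norm_pos_iff.2 h1)
        rw [le_div_iff₀ hpos] at h5
        have h7 : 2 * ρ * (‖g 1 0‖ * ‖g 1 0 * p + g 1 1‖) ≤ 1 :=
          (mul_le_mul_of_nonneg_right (by linarith) hpos.le).trans h5
        have h8 : 0 ≤ ‖g 1 0 * p + g 1 1‖ := norm_nonneg _
        nlinarith
      have h7 : 1 ≤ ‖g 1 0 * z + g 1 1‖ := by
        have e : g 1 0 * (z - p) = (g 1 0 * z + g 1 1) - (g 1 0 * p + g 1 1) := by ring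
        have h8 : ‖g 1 0‖ * ‖z - p‖ ≤ ‖g 1 0 * z + g 1 1‖ + ‖g 1 0 * p + g 1 1‖ := by
          rw [← norm_mul, e]
          exact norm_sub_le _ _
        have h9 : ‖g 1 0‖ * (4 * ρ) ≤ ‖g 1 0‖ * ‖z - p‖ :=
          mul_le_mul_of_nonneg_left (by linarith) n10.le
        linarith
      have hzne : g 1 0 * z + g 1 1 ≠ 0 := norm_pos_iff.1 (by linarith)
      refine ⟨mob g z, ?_, _, hqK, act_coe_of_ne hzne⟩
      have e2 := mob_sub g h10 hzne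
      have h8 : ‖mob g z - g 0 0 / g 1 0‖ ≤ ρ := by
        rw [e2, norm_div, norm_neg, norm_one, norm_mul, div_le_iff₀ (by positivity)]
        have : ‖g 1 0‖ * ρ * 1 ≤ ‖g 1 0‖ * ρ * ‖g 1 0 * z + g 1 1‖ :=
          mul_le_mul_of_nonneg_left h7 (by positivity)
        linarith
      have e : mob g z - Y = (mob g z - g 0 0 / g 1 0) + (g 0 0 / g 1 0 - Y) := by ring
      rw [e]
      have := norm_add_le (mob g z - g 0 0 / g 1 0) (g 0 0 / g 1 0 - Y)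
      linarith

/-- translates connect all pairs of open sets -/
theorem meets {Γ : Subgroup G} {p : ℂ} (hp : Gen Γ p) {K : Set (OnePoint ℂ)}
    (hpK : (p : OnePoint ℂ) ∈ K) {q : OnePoint ℂ} (hqK : q ∈ K) (hqp : q ≠ (p : OnePoint ℂ))
    {U V : Set (OnePoint ℂ)} (hU : IsOpen U) (hU' : U.Nonempty) (hV : IsOpen V)
    (hV' : V.Nonempty) {Φ : Set G} (hΦ : Φ.Finite) :
    ∃ g ∈ Γ, g ∉ Φ ∧ (∃ k ∈ K, act g k ∈ U) ∧ ∃ k ∈ K, act g k ∈ V := by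
  have hUc : IsOpen (((↑) : ℂ → OnePoint ℂ) ⁻¹' U) := hU.preimage OnePoint.continuous_coe
  have hVc : IsOpen (((↑) : ℂ → OnePoint ℂ) ⁻¹' V) := hV.preimage OnePoint.continuous_coe
  obtain ⟨X, hX⟩ : ∃ X : ℂ, (X : OnePoint ℂ) ∈ U := by
    obtain ⟨x, hx, X, rfl⟩ := OnePoint.denseRange_coe.inter_open_nonempty U hU hU'
    exact ⟨X, hx⟩
  obtain ⟨Y0, hY0⟩ : ∃ X : ℂ, (X : OnePoint ℂ) ∈ V := by
    obtain ⟨x, hx, X, rfl⟩ := OnePoint.denseRange_coe.inter_open_nonempty V hV hV'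
    exact ⟨X, hx⟩
  obtain ⟨Y, hY, hYX⟩ : ∃ Y ∈ ((↑) : ℂ → OnePoint ℂ) ⁻¹' V, Y ∈ ({X}ᶜ : Set ℂ) := by
    obtain ⟨Y, hY1, hY2⟩ := (dense_compl_singleton X).inter_open_nonempty _ hVc ⟨Y0, hY0⟩
    exact ⟨Y, hY1, hY2⟩
  obtain ⟨ε, hε, hball⟩ := Metric.isOpen_iff.1 hUc X hX
  obtain ⟨ε', hε', hball'⟩ := Metric.isOpen_iff.1 hVc Y hY
  obtain ⟨g, hg, hgΦ, ⟨x, hx, k, hk, e⟩, y, hy, k', hk', e'⟩ := two_balls hp hpK hqK hqp
    (X := X) (Y := Y) (fun h => hYX h.symm) (lt_min hε hε') hΦ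
  refine ⟨g, hg, hgΦ, ⟨k, hk, ?_⟩, k', hk', ?_⟩
  · rw [e]
    exact hball (mem_ball_iff_norm.2 (hx.trans_le (min_le_left _ _)))
  · rw [e']
    exact hball' (mem_ball_iff_norm.2 (hy.trans_le (min_le_right _ _)))

/-- three of them -/
theorem three {Γ : Subgroup G} {p : ℂ} (hp : Gen Γ p) {K : Set (OnePoint ℂ)}
    (hpK : (p : OnePoint ℂ) ∈ K) {q : OnePoint ℂ} (hqK : q ∈ K) (hqp : q ≠ (p : OnePoint ℂ))
    {U V : Set (OnePoint ℂ)} (hU : IsOpen U) (hU' : U.Nonempty) (hV : IsOpen V)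
    (hV' : V.Nonempty) {F : Set G} (hF : F.Finite) :
    ∃ g₁ g₂ g₃ : G, (∀ g, g = g₁ ∨ g = g₂ ∨ g = g₃ → g ∈ Γ ∧ (∃ k ∈ K, act g k ∈ U) ∧
      ∃ k ∈ K, act g k ∈ V) ∧ g₁⁻¹ * g₂ ∉ F ∧ g₁⁻¹ * g₃ ∉ F ∧ g₂⁻¹ * g₃ ∉ F := by
  obtain ⟨g₁, a1, -, a2, a3⟩ := meets hp hpK hqK hqp hU hU' hV hV' finite_empty
  obtain ⟨g₂, b1, b0, b2, b3⟩ := meets hp hpK hqK hqp hU hU' hV hV' (hF.image fun f => g₁ * f)
  obtain ⟨g₃, c1, c0, c2, c3⟩ := meets hp hpK hqK hqp hU hU' hV hV'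
    ((hF.image fun f => g₁ * f).union (hF.image fun f => g₂ * f))
  rw [mem_union, not_or] at c0
  refine ⟨g₁, g₂, g₃, ?_, fun h => b0 ⟨_, h, mul_inv_cancel_left _ _⟩,
    fun h => c0.1 ⟨_, h, mul_inv_cancel_left _ _⟩, fun h => c0.2 ⟨_, h, mul_inv_cancel_left _ _⟩⟩
  rintro g (rfl | rfl | rfl)
  · exact ⟨a1, a2, a3⟩
  · exact ⟨b1, b2, b3⟩
  · exact ⟨c1, c2, c3⟩

end Pool.Agent.H33.EF
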