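import Pool.Agent.H61.GC.Row4

/-!
MP_90715c_gt, EverywhereFat: the loop lemma for chains of `N` continua around the unit circle.
-/

open Set Filter Topology Complex

namespace Pool.Agent.H33.EF

open Pool.Agent.H33.GC Pool.Agent.H61.GC

/-- `exp (2 π i / N)`. -/
noncomputable def zn (N : ℕ) : ℂ := Complex.exp (((2 * Real.pi / N : ℝ) : ℂ) * Complex.I)

theorem norm_zn (N : ℕ) : ‖zn N‖ = 1 := by
  unfold zn
  exact norm_exp_ofReal_mul_I _

theorem norm_zn_pow (N i : ℕ) : ‖zn N ^ i‖ = 1 := by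
  rw [norm_pow, norm_zn, one_pow]

theorem zn_ne (N : ℕ) : zn N ≠ 0 := norm_pos_iff.1 (by rw [norm_zn]; norm_num)

theorem zn_pow {N : ℕ} (hN : 0 < N) : zn N ^ N = 1 := by
  unfold zn
  rw [← exp_nat_mul]
  have hN' : (N : ℂ) ≠ 0 := by exact_mod_cast hN.ne'
  have e : (N : ℂ) * (((2 * Real.pi / N : ℝ) : ℂ) * I) = 2 * Real.pi * I := by
    push_cast
    field_simp
  rw [e, exp_two_pi_mul_I]

theorem norm_zn_sub_one (N : ℕ) : ‖zn N - 1‖ ≤ 2 * Real.pi / N := by
  unfold zn
  rw [mul_comm]
  refine Real.norm_exp_I_mul_ofReal_sub_one_le.trans ?_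
  rw [Real.norm_of_nonneg (by positivity)]

theorem log_zn_mul {N : ℕ} (hN : 8 ≤ N) {w : ℂ} (hw : 0 < w.re) :
    log (zn N * w) = ((2 * Real.pi / N : ℝ) : ℂ) * I + log w := by
  have hw0 : w ≠ 0 := by
    intro h
    rw [h] at hw
    simp at hw
  have e : zn N * w = exp (((2 * Real.pi / N : ℝ) : ℂ) * I + log w) := by
    rw [exp_add, exp_log hw0]
    rfl
  have harg := (abs_arg_lt_pi_div_two_iff (z := w)).2 (Or.inl hw)
  rw [abs_lt] at harg
  have hpi := Real.pi_pos
  have hN' : (8 : ℝ) ≤ N := by exact_mod_cast hN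
  have h1 : 2 * Real.pi / N ≤ Real.pi / 4 := by
    rw [div_le_iff₀ (by linarith)]
    nlinarith
  have h2 : 0 ≤ 2 * Real.pi / N := by positivity
  have him : (((2 * Real.pi / N : ℝ) : ℂ) * I + log w).im = 2 * Real.pi / N + arg w := by
    rw [add_im, log_im, mul_comm, I_mul_im, ofReal_re]
  rw [e, log_exp]
  · rw [him]; linarith
  · rw [him]; linarith

theorem re_quot_n (N i : ℕ) (z n : ℂ) (b : ℝ) (hz : ‖z - zn N ^ i‖ ≤ b)
    (hn : ‖n‖ ≤ 1 / 10) : 1 - b - 1 / 10 ≤ ((z - n) / zn N ^ i).re := by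
  have h0 : zn N ^ i ≠ 0 := pow_ne_zero _ (zn_ne N)
  have e : (z - n) / zn N ^ i = 1 + (z - zn N ^ i) / zn N ^ i - n / zn N ^ i := by
    field_simp
    ring
  have h1 : ‖(z - zn N ^ i) / zn N ^ i‖ ≤ b := by
    rw [norm_div, norm_zn_pow, div_one]; exact hz
  have h2 : ‖n / zn N ^ i‖ ≤ 1 / 10 := by
    rw [norm_div, norm_zn_pow, div_one]; exact hn
  have h3 := (abs_le.1 ((abs_re_le_norm _).trans h1)).1
  have h4 := (abs_le.1 ((abs_re_le_norm _).trans h2)).2
  rw [e, sub_re, add_re, one_re]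
  linarith

/-- A chain of `N` continua around the unit circle, with small gaps, separates points close to `0`
from points close to infinity. -/
theorem loopn {N : ℕ} (hN : 63 ≤ N) {K : Set ℂ} {n n' : ℂ} {ε : ℝ} {S : ℕ → Set ℂ}
    (hK : IsPreconnected K)
    (hn : n ∈ K) (hn' : n' ∈ K) (hn1 : ‖n‖ ≤ 1 / 10) (hn2 : 10 ≤ ‖n'‖) (hε : 0 < ε)
    (hε2 : ε ≤ 1 / 20)
    (hS : ∀ i < N, IsCompact (S i) ∧ IsPreconnected (S i) ∧ (∀ z ∈ S i, ‖z - zn N ^ i‖ ≤ 4 / 5) ∧
      (∃ z ∈ S i, ‖z - zn N ^ i‖ ≤ ε) ∧ (∃ z ∈ S i, ‖z - zn N ^ (i + 1)‖ ≤ ε) ∧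
      Disjoint (S i) K)
    (hKz : ∀ i < N, ∀ z ∈ K, ε < ‖z - zn N ^ i‖) : False := by
  have hN0 : 0 < N := by omega
  have hN8 : 8 ≤ N := by omega
  have hNR : (63 : ℝ) ≤ N := by exact_mod_cast hN
  have hz1 : ‖zn N - 1‖ ≤ 1 / 10 := by
    refine (norm_zn_sub_one N).trans ?_
    have := Real.pi_lt_d2
    rw [div_le_iff₀ (by linarith)]
    nlinarith
  -- the set `A`
  set A : Set ℂ := ⋃ i ∈ Finset.range N, (S i ∪ Metric.closedBall (zn N ^ i) ε) with hA
  have hAc : IsCompact A := by
    apply (Finset.range N).isCompact_biUnion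
    intro i hi
    exact (hS i (Finset.mem_range.1 hi)).1.union (isCompact_closedBall _ _)
  have hSA : ∀ i < N, S i ⊆ A := by
    intro i hi z hz
    rw [hA, mem_iUnion₂]
    exact ⟨i, Finset.mem_range.2 hi, Or.inl hz⟩
  have hBA : ∀ i < N, Metric.closedBall (zn N ^ i) ε ⊆ A := by
    intro i hi z hz
    rw [hA, mem_iUnion₂]
    exact ⟨i, Finset.mem_range.2 hi, Or.inr hz⟩
  have hBA' : ∀ i ≤ N, Metric.closedBall (zn N ^ i) ε ⊆ A := by
    intro i hi
    rcases Nat.lt_or_ge i N with h | h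
    · exact hBA i h
    · have h8 : i = N := le_antisymm hi h
      rw [h8, zn_pow hN0]
      have := hBA 0 hN0
      rwa [pow_zero] at this
  have hd : ∀ c ∈ K, c ∉ A := by
    intro c hc hcA
    rw [hA, mem_iUnion₂] at hcA
    obtain ⟨i, hi, h⟩ := hcA
    have hi' := Finset.mem_range.1 hi
    rcases h with h | h
    · exact (Set.disjoint_left.1 (hS i hi').2.2.2.2.2 h) hc
    · have := hKz i hi' c hc
      rw [Metric.mem_closedBall, dist_eq_norm] at h
      linarith
  have hAb : ∀ z ∈ A, ‖z‖ ≤ 2 := by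
    intro z hz
    rw [hA, mem_iUnion₂] at hz
    obtain ⟨i, hi, h⟩ := hz
    have hi' := Finset.mem_range.1 hi
    have h1 : ‖z - zn N ^ i‖ ≤ 4 / 5 := by
      rcases h with h | h
      · exact (hS i hi').2.2.1 z h
      · rw [Metric.mem_closedBall, dist_eq_norm] at h
        linarith
    calc ‖z‖ = ‖(z - zn N ^ i) + zn N ^ i‖ := by ring_nf
      _ ≤ ‖z - zn N ^ i‖ + ‖zn N ^ i‖ := norm_add_le _ _
      _ ≤ 2 := by rw [norm_zn_pow]; linarith
  -- a logarithm of `z - n`
  have hlog : HasLog A (fun z => z - n) := by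
    have h1 := hasLog_move hAc hK hd hn hn'
    have hn'0 : n' ≠ 0 := by
      intro h
      rw [h, norm_zero] at hn2
      norm_num at hn2
    have h2 : HasLog A (fun z => z - n') := by
      refine ⟨fun z => log (-n') + log (1 + -(z / n')), ?_, fun z hz => ?_⟩
      · apply ContinuousOn.add continuousOn_const
        apply ContinuousOn.clog
        · fun_prop
        · intro z hz
          apply mem_slitPlane_of_norm_lt_one
          rw [norm_neg, norm_div, div_lt_one (by linarith)]
          have := hAb z hz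
          linarith
      · have h3 : (1 + -(z / n') : ℂ) ≠ 0 := by
          apply slitPlane_ne_zero
          apply mem_slitPlane_of_norm_lt_one
          rw [norm_neg, norm_div, div_lt_one (by linarith)]
          have := hAb z hz
          linarith
        rw [exp_add, exp_log (neg_ne_zero.2 hn'0), exp_log h3]
        field_simp
        ring
    refine h1.mul h2 fun z hz => ?_
    have h3 : z - n' ≠ 0 := by
      intro h0
      have h4 : z = n' := sub_eq_zero.1 h0
      have := hAb z hz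
      rw [h4] at this
      linarith
    field_simp
  obtain ⟨L, hL1, hL2⟩ := hlog
  -- the pieces
  have hzz : ∀ i : ℕ, ‖zn N ^ (i + 1) - zn N ^ i‖ ≤ 1 / 10 := by
    intro i
    have e : zn N ^ (i + 1) - zn N ^ i = zn N ^ i * (zn N - 1) := by
      rw [pow_succ]
      ring
    rw [e, norm_mul, norm_zn_pow, one_mul]
    exact hz1
  have step : ∀ i < N, L (zn N ^ i) - log ((zn N ^ i - n) / zn N ^ i) =
      L (zn N ^ (i + 1)) - log ((zn N ^ (i + 1) - n) / zn N ^ i) := by
    intro i hi
    obtain ⟨s1, s2, s3, ⟨p, p1, p2⟩, ⟨q, q1, q2⟩, s6⟩ := hS i hi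
    set B : Set ℂ := (Metric.closedBall (zn N ^ i) ε ∪ S i) ∪ Metric.closedBall (zn N ^ (i + 1)) ε
      with hB
    have hBp : IsPreconnected B := by
      apply IsPreconnected.union q (Or.inr q1)
      · rw [Metric.mem_closedBall, dist_eq_norm]; exact q2
      · apply IsPreconnected.union p
        · rw [Metric.mem_closedBall, dist_eq_norm]; exact p2
        · exact p1
        · exact (convex_closedBall _ _).isPreconnected
        · exact s2
      · exact (convex_closedBall _ _).isPreconnected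
    have hBsub : B ⊆ A := by
      rintro z ((hz | hz) | hz)
      · exact hBA i hi hz
      · exact hSA i hi hz
      · exact hBA' (i + 1) (by omega) hz
    have hre : ∀ z ∈ B, 0 < ((z - n) / zn N ^ i).re := by
      rintro z ((hz | hz) | hz)
      · rw [Metric.mem_closedBall, dist_eq_norm] at hz
        have := re_quot_n N i z n (4 / 5) (by linarith) hn1
        linarith
      · have := re_quot_n N i z n (4 / 5) (s3 z hz) hn1
        linarith
      · rw [Metric.mem_closedBall, dist_eq_norm] at hz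
        have e : z - zn N ^ i = (z - zn N ^ (i + 1)) + (zn N ^ (i + 1) - zn N ^ i) := by ring
        have h1 : ‖z - zn N ^ i‖ ≤ 4 / 5 := by
          rw [e]
          refine (norm_add_le _ _).trans ?_
          have := hzz i
          linarith
        have := re_quot_n N i z n (4 / 5) h1 hn1
        linarith
    have h0 : zn N ^ i ≠ 0 := pow_ne_zero _ (zn_ne N)
    refine log_const hBp (D := fun z => L z - log ((z - n) / zn N ^ i)) (w := zn N ^ i) ?_ ?_ ?_ ?_
    · apply ContinuousOn.sub (hL1.mono hBsub)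
      apply ContinuousOn.clog
      · fun_prop
      · intro z hz
        exact Or.inl (hre z hz)
    · intro z hz
      have h1 : (z - n) / zn N ^ i ≠ 0 := by
        intro h
        have := hre z hz
        rw [h] at this
        simp at this
      have h2 : z - n ≠ 0 := by
        intro h
        rw [h, zero_div] at h1
        exact h1 rfl
      rw [exp_sub, exp_log h1, hL2 z (hBsub hz)]
      field_simp
    · exact Or.inl (Or.inl (Metric.mem_closedBall_self hε.le))
    · exact Or.inr (Metric.mem_closedBall_self hε.le)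
  have step2 : ∀ i < N, L (zn N ^ (i + 1)) - log ((zn N ^ (i + 1) - n) / zn N ^ (i + 1)) =
      L (zn N ^ i) - log ((zn N ^ i - n) / zn N ^ i) + ((2 * Real.pi / N : ℝ) : ℂ) * I := by
    intro i hi
    have h0 : zn N ≠ 0 := zn_ne N
    have h1 : (zn N ^ (i + 1) - n) / zn N ^ i = zn N * ((zn N ^ (i + 1) - n) / zn N ^ (i + 1)) := by
      field_simp
      ring
    have h2 : 0 < ((zn N ^ (i + 1) - n) / zn N ^ (i + 1)).re := by
      have := re_quot_n N (i + 1) (zn N ^ (i + 1)) n (1 / 10) (by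
        rw [sub_self, norm_zero]; norm_num) hn1
      linarith
    rw [step i hi, h1, log_zn_mul hN8 h2]
    ring
  have all : ∀ i : ℕ, i ≤ N → L (zn N ^ i) - log ((zn N ^ i - n) / zn N ^ i) =
      L (zn N ^ 0) - log ((zn N ^ 0 - n) / zn N ^ 0) + i * (((2 * Real.pi / N : ℝ) : ℂ) * I) := by
    intro i
    induction i with
    | zero => intro _; simp
    | succ i ih =>
      intro hi
      rw [step2 i (by omega), ih (by omega)]
      push_cast
      ring
  have h8 := all N (le_refl _)
  rw [zn_pow hN0, pow_zero] at h8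
  have h9 : (N : ℂ) * (((2 * Real.pi / N : ℝ) : ℂ) * I) = 0 := by
    linear_combination -h8
  have h10 := congrArg Complex.im h9
  have hN' : (N : ℂ) ≠ 0 := by exact_mod_cast hN0.ne'
  have e : (N : ℂ) * (((2 * Real.pi / N : ℝ) : ℂ) * I) = ((2 * Real.pi : ℝ) : ℂ) * I := by
    push_cast
    field_simp
  rw [e] at h10
  simp at h10

end Pool.Agent.H33.EF
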