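import Pool.Agent.H33.EF.Nsl
import Pool.Agent.H33.EF.Loop
import Pool.Agent.H81.FG.Gen
import Pool.Agent.H81.FG.Null

/-!
MP_90715c_gt, EverywhereFat: the main theorem.
-/

open Matrix Set Filter Topology MeasureTheory

namespace Pool.Agent.H33.EF

open Pool.Agent.H90.WC Pool.Agent.H81.FG Pool.Agent.H33.GC Pool.Agent.H61.GC

theorem joinedIn_of {O S : Set ℂ} (hO : IsOpen O) (hS : IsPreconnected S) (hSO : S ⊆ O) {x y : ℂ}
    (hx : x ∈ S) (hy : y ∈ S) : JoinedIn O x y := by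
  have h1 : IsOpen (connectedComponentIn O x) := hO.connectedComponentIn
  have h2 : IsConnected (connectedComponentIn O x) :=
    isConnected_connectedComponentIn_iff.2 (hSO hx)
  have h3 := (IsOpen.isConnected_iff_isPathConnected h1).1 h2
  have h4 := hS.subset_connectedComponentIn hx hSO
  exact (h3.joinedIn x (h4 hx) y (h4 hy)).mono (connectedComponentIn_subset _ _)

/-- the point of the circle -/
noncomputable def cir (a : ℂ) (s : ℝ) (θ : ℝ) : ℂ := a + s * Complex.exp (Complex.I * θ)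

theorem norm_cir_sub (a : ℂ) {s : ℝ} (hs : 0 < s) (θ : ℝ) : ‖cir a s θ - a‖ = s := by
  unfold cir
  rw [add_sub_cancel_left, norm_mul, Complex.norm_real, Real.norm_of_nonneg hs.le, mul_comm
    Complex.I, Complex.norm_exp_ofReal_mul_I, mul_one]

theorem continuous_cir (a : ℂ) (s : ℝ) : Continuous (cir a s) := by
  unfold cir
  fun_prop

theorem cir_sub_cir (a : ℂ) {s : ℝ} (hs : 0 < s) (θ θ' : ℝ) :
    ‖cir a s θ - cir a s θ'‖ ≤ s * |θ - θ'| := by
  have e : cir a s θ - cir a s θ' =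
      s * (Complex.exp (Complex.I * θ') * (Complex.exp (Complex.I * ((θ - θ' : ℝ) : ℂ)) - 1)) := by
    unfold cir
    rw [mul_sub, ← Complex.exp_add]
    have : Complex.I * (θ' : ℂ) + Complex.I * ((θ - θ' : ℝ) : ℂ) = Complex.I * θ := by
      push_cast
      ring
    rw [this]
    ring
  rw [e, norm_mul, norm_mul, Complex.norm_real, Real.norm_of_nonneg hs.le, mul_comm Complex.I
    (θ' : ℂ), Complex.norm_exp_ofReal_mul_I, one_mul]
  exact mul_le_mul_of_nonneg_left Real.norm_exp_I_mul_ofReal_sub_one_le hs.le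

theorem cir_ze (a : ℂ) (s : ℝ) (i : ℕ) : cir a s (i * (Real.pi / 4)) = a + s * ze ^ i := by
  unfold cir ze
  rw [← Complex.exp_nat_mul]
  congr 3
  push_cast
  ring

theorem everywhere {Γ : Subgroup G} {C : Set G} (hC : IsCompact C)
    (hcoc : ∀ g : G, ∃ γ ∈ Γ, γ * g ∈ C)
    {K : Set (OnePoint ℂ)} (hK : IsCompact K) (hKp : IsPreconnected K) {F : Set G}
    (hF : F.Finite) (hFK : ∀ g ∈ Γ, ∀ x ∈ K, act g x ∈ K → g ∈ F) {p : ℂ} (hp : Gen Γ p)
    (hpK : (p : OnePoint ℂ) ∈ K) {q : OnePoint ℂ} (hqK : q ∈ K) (hqp : q ≠ (p : OnePoint ℂ))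
    {η : ℝ} (hη : 0 < η) :
    ∃ M > (0 : ℝ), ∀ A : Set ℂ, IsPreconnected A → (∀ z ∈ A, (z : OnePoint ℂ) ∈ K) →
      ∀ a ∈ A, ∀ b ∈ A, ∀ s > (0 : ℝ), ∀ r > (0 : ℝ), 10 * s ≤ ‖b - a‖ → M * r ≤ s →
        ∃ w : ℂ, ‖w - a‖ = s ∧ ∀ v : ℂ, ‖v - w‖ ≤ r → ∃ u ∈ A, ‖u - v‖ ≤ η * r := by
  obtain ⟨R, hR, hnsl⟩ := nsl hC hcoc hK hKp hF hFK hp hpK hqK hqp (η := η / 2) (by positivity)
  refine ⟨200 * R + 100, by positivity, ?_⟩
  intro A hAp hA a ha b hb s hs r hr hsb hMr
  by_contra hcon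
  push Not at hcon
  choose! v hv1 hv2 using hcon
  set A' : Set ℂ := closure A with hA'
  have hA'K : ∀ z ∈ A', (z : OnePoint ℂ) ∈ K :=
    closure_minimal (t := ((↑) : ℂ → OnePoint ℂ) ⁻¹' K) hA
      (hK.isClosed.preimage OnePoint.continuous_coe)
  have hv3 : ∀ w : ℂ, ‖w - a‖ = s → ∀ u ∈ A', η * r ≤ ‖v w - u‖ := by
    intro w hw
    refine closure_minimal (t := {u : ℂ | η * r ≤ ‖v w - u‖}) ?_
      (isClosed_le continuous_const (by fun_prop))
    intro u hu
    have := hv2 w hw u hu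
    rw [norm_sub_rev] at this
    exact this.le
  have hRr : 2 * R * r ≤ s / 100 := by nlinarith
  have hrs : r ≤ s / 100 := by nlinarith
  -- the regions
  set O : ℕ → Set ℂ := fun i => Metric.ball (a + s * ze ^ i) (4 / 5 * s) \ A' with hO
  have hOo : ∀ i, IsOpen (O i) := fun i => Metric.isOpen_ball.sdiff isClosed_closure
  -- small steps
  have hstep : ∀ (i : ℕ) (θ θ' : ℝ), |θ - i * (Real.pi / 4)| ≤ Real.pi / 4 →
      ‖cir a s θ' - cir a s θ‖ ≤ r → JoinedIn (O i) (v (cir a s θ)) (v (cir a s θ')) := by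
    intro i θ θ' h1 h2
    have c1 := norm_cir_sub a hs θ
    have c2 := norm_cir_sub a hs θ'
    obtain ⟨S, s1, s2, s3, s4, s5⟩ := hnsl (cir a s θ) (2 * r) (by positivity) A' hA'K
      (v (cir a s θ)) (v (cir a s θ')) ((hv1 _ c1).trans (by linarith)) (by
        have e : v (cir a s θ') - cir a s θ =
          (v (cir a s θ') - cir a s θ') + (cir a s θ' - cir a s θ) := by ring
        rw [e]
        refine (norm_add_le _ _).trans ?_
        have := hv1 _ c2
        linarith)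
      (fun u hu => by
        have := hv3 _ c1 u hu
        linarith)
      (fun u hu => by
        have := hv3 _ c2 u hu
        linarith)
    refine joinedIn_of (hOo i) s1 ?_ s2 s3
    intro z hz
    refine ⟨?_, s5 z hz⟩
    rw [mem_ball_iff_norm]
    have h3 := s4 z hz
    have h4 := cir_sub_cir a hs θ (i * (Real.pi / 4))
    rw [cir_ze] at h4
    have e : z - (a + s * ze ^ i) = (z - cir a s θ) + (cir a s θ - (a + s * ze ^ i)) := by ring
    rw [e]
    have h5 := norm_add_le (z - cir a s θ) (cir a s θ - (a + s * ze ^ i))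
    have h6 : s * |θ - i * (Real.pi / 4)| ≤ s * (Real.pi / 4) :=
      mul_le_mul_of_nonneg_left h1 hs.le
    have h7 : Real.pi < 3.15 := Real.pi_lt_d2
    have h8 : s * (Real.pi / 4) ≤ s * (3.15 / 4) := mul_le_mul_of_nonneg_left (by linarith) hs.le
    nlinarith
  -- one piece
  have hpiece : ∀ i : ℕ, JoinedIn (O i) (v (a + s * ze ^ i)) (v (a + s * ze ^ (i + 1))) := by
    intro i
    have hpi := Real.pi_pos
    rw [← cir_ze a s i, ← cir_ze a s (i + 1)]
    refine (isPreconnected_Icc (a := (i : ℝ) * (Real.pi / 4))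
      (b := ((i + 1 : ℕ) : ℝ) * (Real.pi / 4))).induction₂'
      (fun θ θ' => JoinedIn (O i) (v (cir a s θ)) (v (cir a s θ'))) ?_ ?_ ?_ ?_
    · intro θ hθ
      have h1 : |θ - i * (Real.pi / 4)| ≤ Real.pi / 4 := by
        rw [abs_le]
        have h2 := hθ.1
        have h3 := hθ.2
        push_cast at h3
        constructor <;> linarith
      have h2 : ∀ᶠ θ' in 𝓝 θ, ‖cir a s θ' - cir a s θ‖ < r := by
        have h3 : Tendsto (fun θ' => ‖cir a s θ' - cir a s θ‖) (𝓝 θ)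
            (𝓝 ‖cir a s θ - cir a s θ‖) :=
          (((continuous_cir a s).sub continuous_const).norm).tendsto θ
        rw [sub_self, norm_zero] at h3
        exact h3.eventually (gt_mem_nhds hr)
      filter_upwards [mem_nhdsWithin_of_mem_nhds h2] with θ' hθ'
      have h3 := hstep i θ θ' h1 (le_of_lt hθ')
      exact ⟨h3, h3.symm⟩
    · intro x y z _ _ _ h1 h2
      exact h1.trans h2
    · constructor
      · exact le_refl _
      · push_cast
        nlinarith
    · constructor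
      · push_cast
        nlinarith
      · exact le_refl _
  -- the scaled picture
  have hsC : (s : ℂ) ≠ 0 := by exact_mod_cast hs.ne'
  set φ : ℂ → ℂ := fun z => (z - a) / s with hφ
  have hφc : Continuous φ := by
    rw [hφ]
    fun_prop
  have hφn : ∀ z w : ℂ, ‖φ z - w‖ = ‖z - (a + s * w)‖ / s := by
    intro z w
    have e : φ z - w = (z - (a + s * w)) / s := by
      simp only [hφ]
      field_simp
      ring
    rw [e, norm_div, Complex.norm_real, Real.norm_of_nonneg hs.le]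
  have hφi : Function.Injective φ := by
    intro x y hxy
    simp only [hφ] at hxy
    rw [div_left_inj' hsC] at hxy
    exact sub_left_injective hxy
  refine loop2 (K := φ '' A') (n := φ a) (n' := φ b) (y := fun i => φ (v (a + s * ze ^ i)))
    (S := fun i => φ '' range (hpiece i).somePath)
    ((hAp.closure).image _ hφc.continuousOn) (mem_image_of_mem _ (subset_closure ha))
    (mem_image_of_mem _ (subset_closure hb)) ?_ ?_ ?_ ?_ ?_
  · simp only [hφ]
    rw [sub_self, zero_div, norm_zero]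
    norm_num
  · simp only [hφ]
    rw [norm_div, Complex.norm_real, Real.norm_of_nonneg hs.le, le_div_iff₀ hs]
    exact hsb
  · simp only [ze_pow_eight, pow_zero]
  · intro i
    rw [hφn, div_le_iff₀ hs]
    have h1 : ‖(a + s * ze ^ i) - a‖ = s := by
      rw [← cir_ze]
      exact norm_cir_sub a hs _
    have := hv1 _ h1
    linarith
  · intro i _
    have hmem := (hpiece i).somePath_mem
    refine ⟨?_, ?_, ?_, ?_, ?_, ?_⟩
    · exact (isCompact_range (hpiece i).somePath.continuous).image hφc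
    · exact (isPreconnected_range (hpiece i).somePath.continuous).image _ hφc.continuousOn
    · rintro _ ⟨_, ⟨t, rfl⟩, rfl⟩
      rw [hφn, div_le_iff₀ hs]
      exact (mem_ball_iff_norm.1 (hmem t).1).le
    · exact ⟨_, ⟨0, rfl⟩, by rw [(hpiece i).somePath.source]⟩
    · exact ⟨_, ⟨1, rfl⟩, by rw [(hpiece i).somePath.target]⟩
    · rw [Set.disjoint_left]
      rintro _ ⟨_, ⟨t, rfl⟩, rfl⟩ ⟨z, hz, hz'⟩
      rw [hφi hz'] at hz
      exact (hmem t).2 hz

/-- (MAIN) -/
theorem main (Γ : Subgroup G) [DiscreteTopology Γ] [CompactSpace (G ⧸ Γ)] :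
    ∃ E : Set ℂ, IsMeagre E ∧ volume E = 0 ∧
      ∀ K : Set (OnePoint ℂ), IsCompact K → IsConnected K → K.Nontrivial →
        (∃ p : ℂ, p ∉ E ∧ (p : OnePoint ℂ) ∈ K) →
        {g : G | g ∈ Γ ∧ ∃ x ∈ K, act g x ∈ K}.Finite →
        ∀ η > (0 : ℝ), ∃ M > (0 : ℝ), ∀ A : Set ℂ, IsPreconnected A →
          (∀ z ∈ A, (z : OnePoint ℂ) ∈ K) → ∀ a ∈ A, ∀ b ∈ A, ∀ s > (0 : ℝ), ∀ r > (0 : ℝ),
            10 * s ≤ ‖b - a‖ → M * r ≤ s →
              ∃ w : ℂ, ‖w - a‖ = s ∧ ∀ v : ℂ, ‖v - w‖ ≤ r → ∃ u ∈ A, ‖u - v‖ ≤ η * r := by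
  obtain ⟨C, hC, hcoc⟩ := coc_of_compact Γ
  refine ⟨{p : ℂ | Gen Γ p}ᶜ, ?_, ?_, ?_⟩
  · rw [IsMeagre, compl_compl]
    exact gen_residual Γ
  · exact gen_ae Γ
  · rintro K hK hKc hn ⟨p, hp, hpK⟩ hfin η hη
    rw [mem_compl_iff, not_not] at hp
    obtain ⟨q, hq, hqp⟩ := hn.exists_ne (p : OnePoint ℂ)
    exact everywhere hC hcoc hK hKc.isPreconnected hfin (fun g hg x hx hgx => ⟨hg, x, hx, hgx⟩) hp
      hpK hq hqp hη

end Pool.Agent.H33.EF
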