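import Pool.Agent.H33.EF.J
import Pool.Agent.H20.WC.Main

/-!
MP_90715c_gt, EverywhereFat: thick points are connected in bounded distance.
-/

open Matrix Set Filter Topology

namespace Pool.Agent.H33.EF

open Pool.Agent.H90.WC Pool.Agent.H81.FG Pool.Agent.H81.TG

/-- a sequence which leaves all discs tends to infinity -/
theorem tendsto_infty {l : Filter ℕ} (hl : l ≤ atTop) {z : ℕ → OnePoint ℂ}
    (hz : ∀ᶠ n in l, ∀ ζ : ℂ, z n = (ζ : OnePoint ℂ) → (n : ℝ) + 1 ≤ ‖ζ‖) :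
    Tendsto z l (𝓝 OnePoint.infty) := by
  refine (OnePoint.hasBasis_nhds_infty.tendsto_right_iff).2 ?_
  rintro s ⟨-, hs⟩
  obtain ⟨R, hR⟩ := hs.isBounded.exists_norm_le
  obtain ⟨m, hm⟩ := exists_nat_gt R
  filter_upwards [hz, hl (eventually_ge_atTop m)] with n h1 h2
  generalize z n = x at h1
  induction x using OnePoint.rec with
  | infty => exact Or.inr rfl
  | coe ζ =>
    refine Or.inl ⟨ζ, fun hζ => ?_, rfl⟩
    have h3 := h1 ζ rfl
    have h4 := hR ζ hζ
    have h5 : (m : ℝ) ≤ n := by exact_mod_cast h2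
    linarith

theorem nsl {Γ : Subgroup G} {C : Set G} (hC : IsCompact C) (hcoc : ∀ g : G, ∃ γ ∈ Γ, γ * g ∈ C)
    {K : Set (OnePoint ℂ)} (hK : IsCompact K) (hKp : IsPreconnected K) {F : Set G}
    (hF : F.Finite) (hFK : ∀ g ∈ Γ, ∀ x ∈ K, act g x ∈ K → g ∈ F) {p : ℂ} (hp : Gen Γ p)
    (hpK : (p : OnePoint ℂ) ∈ K) {q : OnePoint ℂ} (hqK : q ∈ K) (hqp : q ≠ (p : OnePoint ℂ))
    {η : ℝ} (hη : 0 < η) :
    ∃ R > (0 : ℝ), ∀ (w : ℂ) (r : ℝ), 0 < r → ∀ A : Set ℂ, (∀ z ∈ A, (z : OnePoint ℂ) ∈ K) →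
      ∀ x y : ℂ, ‖x - w‖ ≤ r → ‖y - w‖ ≤ r → (∀ u ∈ A, η * r ≤ ‖x - u‖) →
        (∀ u ∈ A, η * r ≤ ‖y - u‖) →
        ∃ S : Set ℂ, IsPreconnected S ∧ x ∈ S ∧ y ∈ S ∧ (∀ z ∈ S, ‖z - w‖ < R * r) ∧
          ∀ z ∈ S, z ∉ A := by
  by_contra hcon
  push Not at hcon
  choose w r hr A hA x y hx hy hxA hyA hS using fun n : ℕ => hcon ((n : ℝ) + 1) (by positivity)
  choose γ hγ hd using fun n => hcoc (fr (w n) (r n) (hr n))
  set 𝒰 : Ultrafilter ℕ := Filter.hyperfilter ℕ with h𝒰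
  have hle : (𝒰 : Filter ℕ) ≤ atTop := by
    rw [← Nat.cofinite_eq_atTop]
    exact Filter.hyperfilter_le_cofinite
  -- limits
  obtain ⟨d, -, hdl⟩ := hC.ultrafilter_le_nhds (𝒰.map fun n => γ n * fr (w n) (r n) (hr n))
    (by
      rw [Ultrafilter.coe_map, le_principal_iff, mem_map]
      exact Eventually.of_forall hd)
  have hdt : Tendsto (fun n => γ n * fr (w n) (r n) (hr n)) 𝒰 (𝓝 d) := hdl
  have hlim : ∀ x : ℕ → ℂ, (∀ n, ‖x n - w n‖ ≤ r n) → ∃ x' : ℂ, ‖x'‖ ≤ 1 ∧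
      ∀ᶠ n in 𝒰, ‖x n - (r n * x' + w n)‖ < r n * (η / 2) := by
    intro x hx
    obtain ⟨x', hx', hxl⟩ := (isCompact_closedBall (0 : ℂ) 1).ultrafilter_le_nhds
      (𝒰.map fun n => (x n - w n) / r n) (by
        rw [Ultrafilter.coe_map, le_principal_iff, mem_map]
        refine Eventually.of_forall fun n => ?_
        show (x n - w n) / r n ∈ Metric.closedBall (0 : ℂ) 1
        rw [mem_closedBall_zero_iff, norm_div, Complex.norm_real,
          Real.norm_of_nonneg (hr n).le, div_le_one (hr n)]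
        exact hx n)
    have hxt : Tendsto (fun n => (x n - w n) / r n) 𝒰 (𝓝 x') := hxl
    refine ⟨x', mem_closedBall_zero_iff.1 hx', ?_⟩
    have h1 := hxt.eventually (Metric.ball_mem_nhds x' (ε := η / 2) (by positivity))
    filter_upwards [h1] with n hn
    rw [dist_eq_norm] at hn
    have hrn : (r n : ℂ) ≠ 0 := by exact_mod_cast (hr n).ne'
    have e : x n - (r n * x' + w n) = r n * ((x n - w n) / r n - x') := by
      field_simp
      ring
    rw [e, norm_mul, Complex.norm_real, Real.norm_of_nonneg (hr n).le]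
    exact mul_lt_mul_of_pos_left hn (hr n)
  obtain ⟨x', hx'1, hx'⟩ := hlim x hx
  obtain ⟨y', hy'1, hy'⟩ := hlim y hy
  -- the open sets
  have hop : ∀ v : ℂ, IsOpen (act d⁻¹ ⁻¹' (((↑) : ℂ → OnePoint ℂ) '' Metric.ball v (η / 2))) ∧
      (act d⁻¹ ⁻¹' (((↑) : ℂ → OnePoint ℂ) '' Metric.ball v (η / 2))).Nonempty := by
    intro v
    refine ⟨(OnePoint.isOpenEmbedding_coe.isOpenMap _ Metric.isOpen_ball).preimage
      (continuous_act _), act d (v : OnePoint ℂ), v, Metric.mem_ball_self (by positivity), ?_⟩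
    rw [act_inv_act]
  set F' : Set G := image2 (fun a b => a⁻¹ * b) F F with hF'
  have hF'f : F'.Finite := hF.image2 _ hF
  have hFF' : F ⊆ F' := by
    intro f hf
    refine ⟨1, hFK 1 Γ.one_mem _ hpK (by rwa [act_one]), f, hf, ?_⟩
    simp
  obtain ⟨g₁, g₂, g₃, hg, h12, h13, h23⟩ := three hp hpK hqK hqp (hop x').1 (hop x').2
    (hop y').1 (hop y').2 hF'f
  -- the main claim
  have key : ∀ g, g = g₁ ∨ g = g₂ ∨ g = g₃ → (∀ᶠ n in 𝒰, (γ n)⁻¹ * g ∉ F) →
      ∃ k ∈ K, act g k = act d OnePoint.infty := by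
    intro g hgi hgood
    obtain ⟨hgΓ, ⟨k1, hk1, hk1'⟩, k2, hk2, hk2'⟩ := hg g hgi
    have hdinv : Tendsto (fun n => (γ n * fr (w n) (r n) (hr n))⁻¹) 𝒰 (𝓝 d⁻¹) := hdt.inv
    -- the translate meets both balls
    have hmeet : ∀ (v : ℂ) (k : OnePoint ℂ),
        act g k ∈ act d⁻¹ ⁻¹' (((↑) : ℂ → OnePoint ℂ) '' Metric.ball v (η / 2)) →
        ∀ᶠ n in 𝒰, ∃ ζ : ℂ, ‖ζ - (r n * v + w n)‖ < r n * (η / 2) ∧
          act ((γ n)⁻¹ * g) k = (ζ : OnePoint ℂ) := by
      intro v k hk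
      have h1 : Tendsto (fun n => act (γ n * fr (w n) (r n) (hr n))⁻¹ (act g k)) 𝒰
          (𝓝 (act d⁻¹ (act g k))) := tendsto_act hdinv tendsto_const_nhds
      have h2 := h1.eventually
        ((OnePoint.isOpenEmbedding_coe.isOpenMap _ Metric.isOpen_ball).mem_nhds hk)
      filter_upwards [h2] with n hn
      obtain ⟨ζ, hζ, hζ'⟩ := hn
      refine ⟨r n * ζ + w n, ?_, ?_⟩
      · have e : (r n : ℂ) * ζ + w n - (r n * v + w n) = r n * (ζ - v) := by ring
        rw [e, norm_mul, Complex.norm_real, Real.norm_of_nonneg (hr n).le]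
        exact mul_lt_mul_of_pos_left (mem_ball_iff_norm.1 hζ) (hr n)
      · rw [← act_fr (w n) (r n) (hr n), hζ', ← act_mul, ← act_mul]
        congr 1
        group
    -- the translate leaves the big disc
    have hleave : ∀ᶠ n in 𝒰, ∃ k ∈ K, ∀ ζ : ℂ, act ((γ n)⁻¹ * g) k = (ζ : OnePoint ℂ) →
        ((n : ℝ) + 1) * r n ≤ ‖ζ - w n‖ := by
      obtain ⟨m, hm⟩ := exists_nat_gt (η / 2)
      filter_upwards [hgood, hmeet x' k1 hk1', hmeet y' k2 hk2', hx', hy',
        hle (eventually_ge_atTop m)] with n hn1 hn2 hn3 hn4 hn5 hn6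
      by_contra hcon2
      push Not at hcon2
      obtain ⟨ζ1, hζ1, hζ1'⟩ := hn2
      obtain ⟨ζ2, hζ2, hζ2'⟩ := hn3
      have hmn : (m : ℝ) ≤ n := by exact_mod_cast hn6
      set K' : Set (OnePoint ℂ) := act ((γ n)⁻¹ * g) '' K with hK'
      have hinf : OnePoint.infty ∉ K' := by
        rintro ⟨k, hk, hk'⟩
        obtain ⟨ζ, hζ, -⟩ := hcon2 k hk
        rw [hk'] at hζ
        exact OnePoint.infty_ne_coe _ hζ
      obtain ⟨-, hpre⟩ := finite_part (hK.image (continuous_act _))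
        (hKp.image _ (continuous_act ((γ n)⁻¹ * g)).continuousOn) hinf
      set T : Set ℂ := {z : ℂ | (z : OnePoint ℂ) ∈ K'} with hT
      have hball : ∀ (v z : ℂ), ‖v‖ ≤ 1 → z ∈ Metric.ball (r n * v + w n) (r n * (η / 2)) →
          ‖z - w n‖ < ((n : ℝ) + 1) * r n := by
        intro v z hv hz
        rw [mem_ball_iff_norm] at hz
        have e : z - w n = (z - (r n * v + w n)) + r n * v := by ring
        have h1 : ‖z - w n‖ ≤ ‖z - (r n * v + w n)‖ + r n * ‖v‖ := by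
          conv_lhs => rw [e]
          refine (norm_add_le _ _).trans ?_
          rw [norm_mul (r n : ℂ) v, Complex.norm_real, Real.norm_of_nonneg (hr n).le]
        have h2 : r n * ‖v‖ ≤ r n * 1 := mul_le_mul_of_nonneg_left hv (hr n).le
        have h3 : r n * (η / 2) < r n * n := mul_lt_mul_of_pos_left (by linarith) (hr n)
        nlinarith
      have hpt : ∀ (v t z : ℂ), ‖t - (r n * v + w n)‖ < r n * (η / 2) →
          (∀ u ∈ A n, η * r n ≤ ‖t - u‖) → z ∈ Metric.ball (r n * v + w n) (r n * (η / 2)) →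
          z ∉ A n := by
        intro v t z ht hu hz hzA
        rw [mem_ball_iff_norm] at hz
        have h1 := hu z hzA
        have e : t - z = (t - (r n * v + w n)) - (z - (r n * v + w n)) := by ring
        have h2 : ‖t - z‖ ≤ ‖t - (r n * v + w n)‖ + ‖z - (r n * v + w n)‖ := by
          conv_lhs => rw [e]
          exact norm_sub_le _ _
        linarith
      obtain ⟨z, hzS, hzA⟩ := hS n
        (Metric.ball (r n * x' + w n) (r n * (η / 2)) ∪ T ∪
          Metric.ball (r n * y' + w n) (r n * (η / 2))) (by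
          apply IsPreconnected.union ζ2
          · exact Or.inr ⟨k2, hk2, hζ2'⟩
          · exact mem_ball_iff_norm.2 hζ2
          · apply IsPreconnected.union ζ1
            · exact mem_ball_iff_norm.2 hζ1
            · exact ⟨k1, hk1, hζ1'⟩
            · exact (convex_ball _ _).isPreconnected
            · exact hpre
          · exact (convex_ball _ _).isPreconnected)
        (Or.inl (Or.inl (mem_ball_iff_norm.2 hn4))) (Or.inr (mem_ball_iff_norm.2 hn5))
        (by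
          rintro z ((hz | hz) | hz)
          · exact hball x' z hx'1 hz
          · obtain ⟨k, hk, hk'⟩ := hz
            obtain ⟨ζ, hζ, hζ'⟩ := hcon2 k hk
            rw [hζ] at hk'
            rw [← OnePoint.coe_injective hk']
            exact hζ'
          · exact hball y' z hy'1 hz)
      rcases hzS with (hz | hz) | hz
      · exact hpt x' (x n) z hn4 (hxA n) hz hzA
      · obtain ⟨k, hk, hk'⟩ := hz
        refine hn1 (hFK _ (Γ.mul_mem (Γ.inv_mem (hγ n)) hgΓ) k hk ?_)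
        rw [hk']
        exact hA n z hzA
      · exact hpt y' (y n) z hn5 (hyA n) hz hzA
    obtain ⟨k, hk⟩ := hleave.choice
    have hz : Tendsto (fun n => act (fr (w n) (r n) (hr n))⁻¹ (act ((γ n)⁻¹ * g) (k n))) 𝒰
        (𝓝 OnePoint.infty) := by
      apply tendsto_infty hle
      filter_upwards [hk] with n hn ζ hζ
      have e : act ((γ n)⁻¹ * g) (k n) = ((r n * ζ + w n : ℂ) : OnePoint ℂ) := by
        rw [← act_fr (w n) (r n) (hr n), ← hζ, act_act_inv]
      have h1 := hn.2 _ e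
      rw [add_sub_cancel_right, norm_mul, Complex.norm_real, Real.norm_of_nonneg (hr n).le,
        mul_comm] at h1
      exact le_of_mul_le_mul_left h1 (hr n)
    have h3 := tendsto_act hdt hz
    have hcl : IsClosed (act g '' K) := (hK.image (continuous_act g)).isClosed
    have h4 : act d OnePoint.infty ∈ act g '' K := by
      refine hcl.mem_of_tendsto h3 ?_
      filter_upwards [hk] with n hn
      refine ⟨k n, hn.1, ?_⟩
      rw [← act_mul, ← act_mul]
      congr 1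
      group
    exact h4
  -- two good ones are impossible
  have hno : ∀ g g', g = g₁ ∨ g = g₂ ∨ g = g₃ → g' = g₁ ∨ g' = g₂ ∨ g' = g₃ → g⁻¹ * g' ∉ F' →
      (∀ᶠ n in 𝒰, (γ n)⁻¹ * g ∉ F) → (∀ᶠ n in 𝒰, (γ n)⁻¹ * g' ∉ F) → False := by
    intro g g' h1 h2 h3 h4 h5
    obtain ⟨k, hk, e⟩ := key g h1 h4
    obtain ⟨k', hk', e'⟩ := key g' h2 h5
    refine h3 (hFF' (hFK _ (Γ.mul_mem (Γ.inv_mem (hg g h1).1) (hg g' h2).1) k' hk' ?_))
    rw [act_mul, e', ← e, act_inv_act]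
    exact hk
  have hno' : ∀ g g', g⁻¹ * g' ∉ F' → (∀ᶠ n in 𝒰, (γ n)⁻¹ * g ∈ F) →
      (∀ᶠ n in 𝒰, (γ n)⁻¹ * g' ∈ F) → False := by
    intro g g' h3 h4 h5
    obtain ⟨n, hn, hn'⟩ := (h4.and h5).exists
    refine h3 ⟨_, hn, _, hn', ?_⟩
    group
  rcases 𝒰.em fun n => (γ n)⁻¹ * g₁ ∈ F with a | a
  · rcases 𝒰.em fun n => (γ n)⁻¹ * g₂ ∈ F with b | b
    · exact hno' _ _ h12 a b
    · rcases 𝒰.em fun n => (γ n)⁻¹ * g₃ ∈ F with c | c
      · exact hno' _ _ h13 a c
      · exact hno _ _ (Or.inr (Or.inl rfl)) (Or.inr (Or.inr rfl)) h23 b c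
  · rcases 𝒰.em fun n => (γ n)⁻¹ * g₂ ∈ F with b | b
    · rcases 𝒰.em fun n => (γ n)⁻¹ * g₃ ∈ F with c | c
      · exact hno' _ _ h23 b c
      · exact hno _ _ (Or.inl rfl) (Or.inr (Or.inr rfl)) h13 a c
    · exact hno _ _ (Or.inl rfl) (Or.inr (Or.inl rfl)) h12 a b

end Pool.Agent.H33.EF
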