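import Pool.Agent.H33.EF.Main

/-!
MP_90715c_gt: thick points are connected in bounded distance, and everywhere fatness, for all
continua whose translates connect all pairs of open sets.
-/

open Matrix Set Filter Topology MeasureTheory

namespace Pool.Agent.H33.EF

open Pool.Agent.H90.WC Pool.Agent.H81.FG Pool.Agent.H81.TG Pool.Agent.H33.GC Pool.Agent.H61.GC

/-- translates of `K` connect all pairs of open sets -/
def Joins (Γ : Subgroup G) (K : Set (OnePoint ℂ)) : Prop :=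
  ∀ U V : Set (OnePoint ℂ), IsOpen U → U.Nonempty → IsOpen V → V.Nonempty → ∀ Φ : Set G,
    Φ.Finite → ∃ g ∈ Γ, g ∉ Φ ∧ (∃ k ∈ K, act g k ∈ U) ∧ ∃ k ∈ K, act g k ∈ V

theorem joins_of_gen {Γ : Subgroup G} {p : ℂ} (hp : Gen Γ p) {K : Set (OnePoint ℂ)}
    (hpK : (p : OnePoint ℂ) ∈ K) (hn : K.Nontrivial) : Joins Γ K := by
  obtain ⟨q, hq, hqp⟩ := hn.exists_ne (p : OnePoint ℂ)
  intro U V hU hU' hV hV' Φ hΦ
  exact meets hp hpK hq hqp hU hU' hV hV' hΦ

theorem threeJ {Γ : Subgroup G} {K : Set (OnePoint ℂ)} (hJ : Joins Γ K)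
    {U V : Set (OnePoint ℂ)} (hU : IsOpen U) (hU' : U.Nonempty) (hV : IsOpen V)
    (hV' : V.Nonempty) {F : Set G} (hF : F.Finite) :
    ∃ g₁ g₂ g₃ : G, (∀ g, g = g₁ ∨ g = g₂ ∨ g = g₃ → g ∈ Γ ∧ (∃ k ∈ K, act g k ∈ U) ∧
      ∃ k ∈ K, act g k ∈ V) ∧ g₁⁻¹ * g₂ ∉ F ∧ g₁⁻¹ * g₃ ∉ F ∧ g₂⁻¹ * g₃ ∉ F := by
  obtain ⟨g₁, a1, -, a2, a3⟩ := hJ U V hU hU' hV hV' ∅ finite_empty
  obtain ⟨g₂, b1, b0, b2, b3⟩ := hJ U V hU hU' hV hV' _ (hF.image fun f => g₁ * f)
  obtain ⟨g₃, c1, c0, c2, c3⟩ := hJ U V hU hU' hV hV' _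
    ((hF.image fun f => g₁ * f).union (hF.image fun f => g₂ * f))
  rw [mem_union, not_or] at c0
  refine ⟨g₁, g₂, g₃, ?_, fun h => b0 ⟨_, h, mul_inv_cancel_left _ _⟩,
    fun h => c0.1 ⟨_, h, mul_inv_cancel_left _ _⟩, fun h => c0.2 ⟨_, h, mul_inv_cancel_left _ _⟩⟩
  rintro g (rfl | rfl | rfl)
  · exact ⟨a1, a2, a3⟩
  · exact ⟨b1, b2, b3⟩
  · exact ⟨c1, c2, c3⟩

theorem nslJ {Γ : Subgroup G} {C : Set G} (hC : IsCompact C) (hcoc : ∀ g : G, ∃ γ ∈ Γ, γ * g ∈ C)
    {K : Set (OnePoint ℂ)} (hK : IsCompact K) (hKp : IsPreconnected K) {F : Set G}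
    (hF : F.Finite) (hFK : ∀ g ∈ Γ, ∀ x ∈ K, act g x ∈ K → g ∈ F) (hne : K.Nonempty)
    (hJ : Joins Γ K) {η : ℝ} (hη : 0 < η) :
    ∃ R > (0 : ℝ), ∀ (w : ℂ) (r : ℝ), 0 < r → ∀ A : Set ℂ, (∀ z ∈ A, (z : OnePoint ℂ) ∈ K) →
      ∀ x y : ℂ, ‖x - w‖ ≤ r → ‖y - w‖ ≤ r → (∀ u ∈ A, η * r ≤ ‖x - u‖) →
        (∀ u ∈ A, η * r ≤ ‖y - u‖) →
        ∃ S : Set ℂ, IsPreconnected S ∧ x ∈ S ∧ y ∈ S ∧ (∀ z ∈ S, ‖z - w‖ < R * r) ∧
          ∀ z ∈ S, z ∉ A := by
  by_contra hcon
  push Not at hcon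
  choose w r hr A hA x y hx hy hxA hyA hS using fun n : ℕ => hcon ((n : ℝ) + 1) (by positivity)
  choose γ hγ hd using fun n => hcoc (fr (w n) (r n) (hr n))
  set 𝒰 : Ultrafilter ℕ := Filter.hyperfilter ℕ with h𝒰
  have hle : (𝒰 : Filter ℕ) ≤ atTop := by
    rw [← Nat.cofinite_eq_atTop]
    exact Filter.hyperfilter_le_cofinite
  -- limits
  obtain ⟨d, -, hdl⟩ := hC.ultrafilter_le_nhds (𝒰.map fun n => γ n * fr (w n) (r n) (hr n))
    (by
      rw [Ultrafilter.coe_map, le_principal_iff, mem_map]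
      exact Eventually.of_forall hd)
  have hdt : Tendsto (fun n => γ n * fr (w n) (r n) (hr n)) 𝒰 (𝓝 d) := hdl
  have hlim : ∀ x : ℕ → ℂ, (∀ n, ‖x n - w n‖ ≤ r n) → ∃ x' : ℂ, ‖x'‖ ≤ 1 ∧
      ∀ᶠ n in 𝒰, ‖x n - (r n * x' + w n)‖ < r n * (η / 2) := by
    intro x hx
    obtain ⟨x', hx', hxl⟩ := (isCompact_closedBall (0 : ℂ) 1).ultrafilter_le_nhds
      (𝒰.map fun n => (x n - w n) / r n) (by
        rw [Ultrafilter.coe_map, le_principal_iff, mem_map]
        refine Eventually.of_forall fun n => ?_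
        show (x n - w n) / r n ∈ Metric.closedBall (0 : ℂ) 1
        rw [mem_closedBall_zero_iff, norm_div, Complex.norm_real,
          Real.norm_of_nonneg (hr n).le, div_le_one (hr n)]
        exact hx n)
    have hxt : Tendsto (fun n => (x n - w n) / r n) 𝒰 (𝓝 x') := hxl
    refine ⟨x', mem_closedBall_zero_iff.1 hx', ?_⟩
    have h1 := hxt.eventually (Metric.ball_mem_nhds x' (ε := η / 2) (by positivity))
    filter_upwards [h1] with n hn
    rw [dist_eq_norm] at hn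
    have hrn : (r n : ℂ) ≠ 0 := by exact_mod_cast (hr n).ne'
    have e : x n - (r n * x' + w n) = r n * ((x n - w n) / r n - x') := by
      field_simp
      ring
    rw [e, norm_mul, Complex.norm_real, Real.norm_of_nonneg (hr n).le]
    exact mul_lt_mul_of_pos_left hn (hr n)
  obtain ⟨x', hx'1, hx'⟩ := hlim x hx
  obtain ⟨y', hy'1, hy'⟩ := hlim y hy
  -- the open sets
  have hop : ∀ v : ℂ, IsOpen (act d⁻¹ ⁻¹' (((↑) : ℂ → OnePoint ℂ) '' Metric.ball v (η / 2))) ∧
      (act d⁻¹ ⁻¹' (((↑) : ℂ → OnePoint ℂ) '' Metric.ball v (η / 2))).Nonempty := by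
    intro v
    refine ⟨(OnePoint.isOpenEmbedding_coe.isOpenMap _ Metric.isOpen_ball).preimage
      (continuous_act _), act d (v : OnePoint ℂ), v, Metric.mem_ball_self (by positivity), ?_⟩
    rw [act_inv_act]
  set F' : Set G := image2 (fun a b => a⁻¹ * b) F F with hF'
  have hF'f : F'.Finite := hF.image2 _ hF
  have hFF' : F ⊆ F' := by
    intro f hf
    obtain ⟨k0, hk0⟩ := hne
    refine ⟨1, hFK 1 Γ.one_mem k0 hk0 (by rwa [act_one]), f, hf, ?_⟩
    simp
  obtain ⟨g₁, g₂, g₃, hg, h12, h13, h23⟩ := threeJ hJ (hop x').1 (hop x').2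
    (hop y').1 (hop y').2 hF'f
  -- the main claim
  have key : ∀ g, g = g₁ ∨ g = g₂ ∨ g = g₃ → (∀ᶠ n in 𝒰, (γ n)⁻¹ * g ∉ F) →
      ∃ k ∈ K, act g k = act d OnePoint.infty := by
    intro g hgi hgood
    obtain ⟨hgΓ, ⟨k1, hk1, hk1'⟩, k2, hk2, hk2'⟩ := hg g hgi
    have hdinv : Tendsto (fun n => (γ n * fr (w n) (r n) (hr n))⁻¹) 𝒰 (𝓝 d⁻¹) := hdt.inv
    -- the translate meets both balls
    have hmeet : ∀ (v : ℂ) (k : OnePoint ℂ),
        act g k ∈ act d⁻¹ ⁻¹' (((↑) : ℂ → OnePoint ℂ) '' Metric.ball v (η / 2)) →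
        ∀ᶠ n in 𝒰, ∃ ζ : ℂ, ‖ζ - (r n * v + w n)‖ < r n * (η / 2) ∧
          act ((γ n)⁻¹ * g) k = (ζ : OnePoint ℂ) := by
      intro v k hk
      have h1 : Tendsto (fun n => act (γ n * fr (w n) (r n) (hr n))⁻¹ (act g k)) 𝒰
          (𝓝 (act d⁻¹ (act g k))) := tendsto_act hdinv tendsto_const_nhds
      have h2 := h1.eventually
        ((OnePoint.isOpenEmbedding_coe.isOpenMap _ Metric.isOpen_ball).mem_nhds hk)
      filter_upwards [h2] with n hn
      obtain ⟨ζ, hζ, hζ'⟩ := hn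
      refine ⟨r n * ζ + w n, ?_, ?_⟩
      · have e : (r n : ℂ) * ζ + w n - (r n * v + w n) = r n * (ζ - v) := by ring
        rw [e, norm_mul, Complex.norm_real, Real.norm_of_nonneg (hr n).le]
        exact mul_lt_mul_of_pos_left (mem_ball_iff_norm.1 hζ) (hr n)
      · rw [← act_fr (w n) (r n) (hr n), hζ', ← act_mul, ← act_mul]
        congr 1
        group
    -- the translate leaves the big disc
    have hleave : ∀ᶠ n in 𝒰, ∃ k ∈ K, ∀ ζ : ℂ, act ((γ n)⁻¹ * g) k = (ζ : OnePoint ℂ) →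
        ((n : ℝ) + 1) * r n ≤ ‖ζ - w n‖ := by
      obtain ⟨m, hm⟩ := exists_nat_gt (η / 2)
      filter_upwards [hgood, hmeet x' k1 hk1', hmeet y' k2 hk2', hx', hy',
        hle (eventually_ge_atTop m)] with n hn1 hn2 hn3 hn4 hn5 hn6
      by_contra hcon2
      push Not at hcon2
      obtain ⟨ζ1, hζ1, hζ1'⟩ := hn2
      obtain ⟨ζ2, hζ2, hζ2'⟩ := hn3
      have hmn : (m : ℝ) ≤ n := by exact_mod_cast hn6
      set K' : Set (OnePoint ℂ) := act ((γ n)⁻¹ * g) '' K with hK'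
      have hinf : OnePoint.infty ∉ K' := by
        rintro ⟨k, hk, hk'⟩
        obtain ⟨ζ, hζ, -⟩ := hcon2 k hk
        rw [hk'] at hζ
        exact OnePoint.infty_ne_coe _ hζ
      obtain ⟨-, hpre⟩ := finite_part (hK.image (continuous_act _))
        (hKp.image _ (continuous_act ((γ n)⁻¹ * g)).continuousOn) hinf
      set T : Set ℂ := {z : ℂ | (z : OnePoint ℂ) ∈ K'} with hT
      have hball : ∀ (v z : ℂ), ‖v‖ ≤ 1 → z ∈ Metric.ball (r n * v + w n) (r n * (η / 2)) →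
          ‖z - w n‖ < ((n : ℝ) + 1) * r n := by
        intro v z hv hz
        rw [mem_ball_iff_norm] at hz
        have e : z - w n = (z - (r n * v + w n)) + r n * v := by ring
        have h1 : ‖z - w n‖ ≤ ‖z - (r n * v + w n)‖ + r n * ‖v‖ := by
          conv_lhs => rw [e]
          refine (norm_add_le _ _).trans ?_
          rw [norm_mul (r n : ℂ) v, Complex.norm_real, Real.norm_of_nonneg (hr n).le]
        have h2 : r n * ‖v‖ ≤ r n * 1 := mul_le_mul_of_nonneg_left hv (hr n).le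
        have h3 : r n * (η / 2) < r n * n := mul_lt_mul_of_pos_left (by linarith) (hr n)
        nlinarith
      have hpt : ∀ (v t z : ℂ), ‖t - (r n * v + w n)‖ < r n * (η / 2) →
          (∀ u ∈ A n, η * r n ≤ ‖t - u‖) → z ∈ Metric.ball (r n * v + w n) (r n * (η / 2)) →
          z ∉ A n := by
        intro v t z ht hu hz hzA
        rw [mem_ball_iff_norm] at hz
        have h1 := hu z hzA
        have e : t - z = (t - (r n * v + w n)) - (z - (r n * v + w n)) := by ring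
        have h2 : ‖t - z‖ ≤ ‖t - (r n * v + w n)‖ + ‖z - (r n * v + w n)‖ := by
          conv_lhs => rw [e]
          exact norm_sub_le _ _
        linarith
      obtain ⟨z, hzS, hzA⟩ := hS n
        (Metric.ball (r n * x' + w n) (r n * (η / 2)) ∪ T ∪
          Metric.ball (r n * y' + w n) (r n * (η / 2))) (by
          apply IsPreconnected.union ζ2
          · exact Or.inr ⟨k2, hk2, hζ2'⟩
          · exact mem_ball_iff_norm.2 hζ2
          · apply IsPreconnected.union ζ1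
            · exact mem_ball_iff_norm.2 hζ1
            · exact ⟨k1, hk1, hζ1'⟩
            · exact (convex_ball _ _).isPreconnected
            · exact hpre
          · exact (convex_ball _ _).isPreconnected)
        (Or.inl (Or.inl (mem_ball_iff_norm.2 hn4))) (Or.inr (mem_ball_iff_norm.2 hn5))
        (by
          rintro z ((hz | hz) | hz)
          · exact hball x' z hx'1 hz
          · obtain ⟨k, hk, hk'⟩ := hz
            obtain ⟨ζ, hζ, hζ'⟩ := hcon2 k hk
            rw [hζ] at hk'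
            rw [← OnePoint.coe_injective hk']
            exact hζ'
          · exact hball y' z hy'1 hz)
      rcases hzS with (hz | hz) | hz
      · exact hpt x' (x n) z hn4 (hxA n) hz hzA
      · obtain ⟨k, hk, hk'⟩ := hz
        refine hn1 (hFK _ (Γ.mul_mem (Γ.inv_mem (hγ n)) hgΓ) k hk ?_)
        rw [hk']
        exact hA n z hzA
      · exact hpt y' (y n) z hn5 (hyA n) hz hzA
    obtain ⟨k, hk⟩ := hleave.choice
    have hz : Tendsto (fun n => act (fr (w n) (r n) (hr n))⁻¹ (act ((γ n)⁻¹ * g) (k n))) 𝒰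
        (𝓝 OnePoint.infty) := by
      apply tendsto_infty hle
      filter_upwards [hk] with n hn ζ hζ
      have e : act ((γ n)⁻¹ * g) (k n) = ((r n * ζ + w n : ℂ) : OnePoint ℂ) := by
        rw [← act_fr (w n) (r n) (hr n), ← hζ, act_act_inv]
      have h1 := hn.2 _ e
      rw [add_sub_cancel_right, norm_mul, Complex.norm_real, Real.norm_of_nonneg (hr n).le,
        mul_comm] at h1
      exact le_of_mul_le_mul_left h1 (hr n)
    have h3 := tendsto_act hdt hz
    have hcl : IsClosed (act g '' K) := (hK.image (continuous_act g)).isClosed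
    have h4 : act d OnePoint.infty ∈ act g '' K := by
      refine hcl.mem_of_tendsto h3 ?_
      filter_upwards [hk] with n hn
      refine ⟨k n, hn.1, ?_⟩
      rw [← act_mul, ← act_mul]
      congr 1
      group
    exact h4
  -- two good ones are impossible
  have hno : ∀ g g', g = g₁ ∨ g = g₂ ∨ g = g₃ → g' = g₁ ∨ g' = g₂ ∨ g' = g₃ → g⁻¹ * g' ∉ F' →
      (∀ᶠ n in 𝒰, (γ n)⁻¹ * g ∉ F) → (∀ᶠ n in 𝒰, (γ n)⁻¹ * g' ∉ F) → False := by
    intro g g' h1 h2 h3 h4 h5
    obtain ⟨k, hk, e⟩ := key g h1 h4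
    obtain ⟨k', hk', e'⟩ := key g' h2 h5
    refine h3 (hFF' (hFK _ (Γ.mul_mem (Γ.inv_mem (hg g h1).1) (hg g' h2).1) k' hk' ?_))
    rw [act_mul, e', ← e, act_inv_act]
    exact hk
  have hno' : ∀ g g', g⁻¹ * g' ∉ F' → (∀ᶠ n in 𝒰, (γ n)⁻¹ * g ∈ F) →
      (∀ᶠ n in 𝒰, (γ n)⁻¹ * g' ∈ F) → False := by
    intro g g' h3 h4 h5
    obtain ⟨n, hn, hn'⟩ := (h4.and h5).exists
    refine h3 ⟨_, hn, _, hn', ?_⟩
    group
  rcases 𝒰.em fun n => (γ n)⁻¹ * g₁ ∈ F with a | a
  · rcases 𝒰.em fun n => (γ n)⁻¹ * g₂ ∈ F with b | b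
    · exact hno' _ _ h12 a b
    · rcases 𝒰.em fun n => (γ n)⁻¹ * g₃ ∈ F with c | c
      · exact hno' _ _ h13 a c
      · exact hno _ _ (Or.inr (Or.inl rfl)) (Or.inr (Or.inr rfl)) h23 b c
  · rcases 𝒰.em fun n => (γ n)⁻¹ * g₂ ∈ F with b | b
    · rcases 𝒰.em fun n => (γ n)⁻¹ * g₃ ∈ F with c | c
      · exact hno' _ _ h23 b c
      · exact hno _ _ (Or.inl rfl) (Or.inr (Or.inr rfl)) h13 a c
    · exact hno _ _ (Or.inl rfl) (Or.inr (Or.inl rfl)) h12 a b

theorem everywhereJ {Γ : Subgroup G} {C : Set G} (hC : IsCompact C)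
    (hcoc : ∀ g : G, ∃ γ ∈ Γ, γ * g ∈ C)
    {K : Set (OnePoint ℂ)} (hK : IsCompact K) (hKp : IsPreconnected K) {F : Set G}
    (hF : F.Finite) (hFK : ∀ g ∈ Γ, ∀ x ∈ K, act g x ∈ K → g ∈ F) (hne : K.Nonempty)
    (hJ : Joins Γ K) {η : ℝ} (hη : 0 < η) :
    ∃ M > (0 : ℝ), ∀ A : Set ℂ, IsPreconnected A → (∀ z ∈ A, (z : OnePoint ℂ) ∈ K) →
      ∀ a ∈ A, ∀ b ∈ A, ∀ s > (0 : ℝ), ∀ r > (0 : ℝ), 10 * s ≤ ‖b - a‖ → M * r ≤ s →
        ∃ w : ℂ, ‖w - a‖ = s ∧ ∀ v : ℂ, ‖v - w‖ ≤ r → ∃ u ∈ A, ‖u - v‖ ≤ η * r := by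
  obtain ⟨R, hR, hnsl⟩ := nslJ hC hcoc hK hKp hF hFK hne hJ (η := η / 2) (by positivity)
  refine ⟨200 * R + 100, by positivity, ?_⟩
  intro A hAp hA a ha b hb s hs r hr hsb hMr
  by_contra hcon
  push Not at hcon
  choose! v hv1 hv2 using hcon
  set A' : Set ℂ := closure A with hA'
  have hA'K : ∀ z ∈ A', (z : OnePoint ℂ) ∈ K :=
    closure_minimal (t := ((↑) : ℂ → OnePoint ℂ) ⁻¹' K) hA
      (hK.isClosed.preimage OnePoint.continuous_coe)
  have hv3 : ∀ w : ℂ, ‖w - a‖ = s → ∀ u ∈ A', η * r ≤ ‖v w - u‖ := by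
    intro w hw
    refine closure_minimal (t := {u : ℂ | η * r ≤ ‖v w - u‖}) ?_
      (isClosed_le continuous_const (by fun_prop))
    intro u hu
    have := hv2 w hw u hu
    rw [norm_sub_rev] at this
    exact this.le
  have hRr : 2 * R * r ≤ s / 100 := by nlinarith
  have hrs : r ≤ s / 100 := by nlinarith
  -- the regions
  set O : ℕ → Set ℂ := fun i => Metric.ball (a + s * ze ^ i) (4 / 5 * s) \ A' with hO
  have hOo : ∀ i, IsOpen (O i) := fun i => Metric.isOpen_ball.sdiff isClosed_closure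
  -- small steps
  have hstep : ∀ (i : ℕ) (θ θ' : ℝ), |θ - i * (Real.pi / 4)| ≤ Real.pi / 4 →
      ‖cir a s θ' - cir a s θ‖ ≤ r → JoinedIn (O i) (v (cir a s θ)) (v (cir a s θ')) := by
    intro i θ θ' h1 h2
    have c1 := norm_cir_sub a hs θ
    have c2 := norm_cir_sub a hs θ'
    obtain ⟨S, s1, s2, s3, s4, s5⟩ := hnsl (cir a s θ) (2 * r) (by positivity) A' hA'K
      (v (cir a s θ)) (v (cir a s θ')) ((hv1 _ c1).trans (by linarith)) (by
        have e : v (cir a s θ') - cir a s θ =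
          (v (cir a s θ') - cir a s θ') + (cir a s θ' - cir a s θ) := by ring
        rw [e]
        refine (norm_add_le _ _).trans ?_
        have := hv1 _ c2
        linarith)
      (fun u hu => by
        have := hv3 _ c1 u hu
        linarith)
      (fun u hu => by
        have := hv3 _ c2 u hu
        linarith)
    refine joinedIn_of (hOo i) s1 ?_ s2 s3
    intro z hz
    refine ⟨?_, s5 z hz⟩
    rw [mem_ball_iff_norm]
    have h3 := s4 z hz
    have h4 := cir_sub_cir a hs θ (i * (Real.pi / 4))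
    rw [cir_ze] at h4
    have e : z - (a + s * ze ^ i) = (z - cir a s θ) + (cir a s θ - (a + s * ze ^ i)) := by ring
    rw [e]
    have h5 := norm_add_le (z - cir a s θ) (cir a s θ - (a + s * ze ^ i))
    have h6 : s * |θ - i * (Real.pi / 4)| ≤ s * (Real.pi / 4) :=
      mul_le_mul_of_nonneg_left h1 hs.le
    have h7 : Real.pi < 3.15 := Real.pi_lt_d2
    have h8 : s * (Real.pi / 4) ≤ s * (3.15 / 4) := mul_le_mul_of_nonneg_left (by linarith) hs.le
    nlinarith
  -- one piece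
  have hpiece : ∀ i : ℕ, JoinedIn (O i) (v (a + s * ze ^ i)) (v (a + s * ze ^ (i + 1))) := by
    intro i
    have hpi := Real.pi_pos
    rw [← cir_ze a s i, ← cir_ze a s (i + 1)]
    refine (isPreconnected_Icc (a := (i : ℝ) * (Real.pi / 4))
      (b := ((i + 1 : ℕ) : ℝ) * (Real.pi / 4))).induction₂'
      (fun θ θ' => JoinedIn (O i) (v (cir a s θ)) (v (cir a s θ'))) ?_ ?_ ?_ ?_
    · intro θ hθ
      have h1 : |θ - i * (Real.pi / 4)| ≤ Real.pi / 4 := by
        rw [abs_le]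
        have h2 := hθ.1
        have h3 := hθ.2
        push_cast at h3
        constructor <;> linarith
      have h2 : ∀ᶠ θ' in 𝓝 θ, ‖cir a s θ' - cir a s θ‖ < r := by
        have h3 : Tendsto (fun θ' => ‖cir a s θ' - cir a s θ‖) (𝓝 θ)
            (𝓝 ‖cir a s θ - cir a s θ‖) :=
          (((continuous_cir a s).sub continuous_const).norm).tendsto θ
        rw [sub_self, norm_zero] at h3
        exact h3.eventually (gt_mem_nhds hr)
      filter_upwards [mem_nhdsWithin_of_mem_nhds h2] with θ' hθ'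
      have h3 := hstep i θ θ' h1 (le_of_lt hθ')
      exact ⟨h3, h3.symm⟩
    · intro x y z _ _ _ h1 h2
      exact h1.trans h2
    · constructor
      · exact le_refl _
      · push_cast
        nlinarith
    · constructor
      · push_cast
        nlinarith
      · exact le_refl _
  -- the scaled picture
  have hsC : (s : ℂ) ≠ 0 := by exact_mod_cast hs.ne'
  set φ : ℂ → ℂ := fun z => (z - a) / s with hφ
  have hφc : Continuous φ := by
    rw [hφ]
    fun_prop
  have hφn : ∀ z w : ℂ, ‖φ z - w‖ = ‖z - (a + s * w)‖ / s := by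
    intro z w
    have e : φ z - w = (z - (a + s * w)) / s := by
      simp only [hφ]
      field_simp
      ring
    rw [e, norm_div, Complex.norm_real, Real.norm_of_nonneg hs.le]
  have hφi : Function.Injective φ := by
    intro x y hxy
    simp only [hφ] at hxy
    rw [div_left_inj' hsC] at hxy
    exact sub_left_injective hxy
  refine loop2 (K := φ '' A') (n := φ a) (n' := φ b) (y := fun i => φ (v (a + s * ze ^ i)))
    (S := fun i => φ '' range (hpiece i).somePath)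
    ((hAp.closure).image _ hφc.continuousOn) (mem_image_of_mem _ (subset_closure ha))
    (mem_image_of_mem _ (subset_closure hb)) ?_ ?_ ?_ ?_ ?_
  · simp only [hφ]
    rw [sub_self, zero_div, norm_zero]
    norm_num
  · simp only [hφ]
    rw [norm_div, Complex.norm_real, Real.norm_of_nonneg hs.le, le_div_iff₀ hs]
    exact hsb
  · simp only [ze_pow_eight, pow_zero]
  · intro i
    rw [hφn, div_le_iff₀ hs]
    have h1 : ‖(a + s * ze ^ i) - a‖ = s := by
      rw [← cir_ze]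
      exact norm_cir_sub a hs _
    have := hv1 _ h1
    linarith
  · intro i _
    have hmem := (hpiece i).somePath_mem
    refine ⟨?_, ?_, ?_, ?_, ?_, ?_⟩
    · exact (isCompact_range (hpiece i).somePath.continuous).image hφc
    · exact (isPreconnected_range (hpiece i).somePath.continuous).image _ hφc.continuousOn
    · rintro _ ⟨_, ⟨t, rfl⟩, rfl⟩
      rw [hφn, div_le_iff₀ hs]
      exact (mem_ball_iff_norm.1 (hmem t).1).le
    · exact ⟨_, ⟨0, rfl⟩, by rw [(hpiece i).somePath.source]⟩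
    · exact ⟨_, ⟨1, rfl⟩, by rw [(hpiece i).somePath.target]⟩
    · rw [Set.disjoint_left]
      rintro _ ⟨_, ⟨t, rfl⟩, rfl⟩ ⟨z, hz, hz'⟩
      rw [hφi hz'] at hz
      exact (hmem t).2 hz

end Pool.Agent.H33.EF
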